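import Mathlib

set_option autoImplicit false

open scoped commutatorElement

namespace Pool.Agent.Helper705.Rad

/-- affine maps `ω ↦ t • ω + b` -/
@[ext]
structure Af (T S : Type) where
  t : T
  b : S

namespace Af

variable {T S : Type} [Group T] [AddCommGroup S] [DistribMulAction T S]

instance : Mul (Af T S) := ⟨fun x y => ⟨x.t * y.t, x.b + x.t • y.b⟩⟩
instance : One (Af T S) := ⟨⟨1, 0⟩⟩
instance : Inv (Af T S) := ⟨fun x => ⟨x.t⁻¹, -(x.t⁻¹ • x.b)⟩⟩

@[simp] lemma mul_t (x y : Af T S) : (x * y).t = x.t * y.t := rfl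
@[simp] lemma mul_b (x y : Af T S) : (x * y).b = x.b + x.t • y.b := rfl
@[simp] lemma one_t : (1 : Af T S).t = 1 := rfl
@[simp] lemma one_b : (1 : Af T S).b = 0 := rfl
@[simp] lemma inv_t (x : Af T S) : (x⁻¹).t = x.t⁻¹ := rfl
@[simp] lemma inv_b (x : Af T S) : (x⁻¹).b = -(x.t⁻¹ • x.b) := rfl

instance : Group (Af T S) := Group.ofLeftAxioms
  (by intro x y z; ext <;> simp [mul_assoc, mul_smul, add_assoc])
  (by intro x; ext <;> simp)
  (by intro x; ext <;> simp)

/-- the action on `S` -/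
def toPerm : Af T S →* Equiv.Perm S where
  toFun x :=
    { toFun := fun ω => x.t • ω + x.b
      invFun := fun ω => x.t⁻¹ • (ω - x.b)
      left_inv := by intro ω; simp
      right_inv := by intro ω; simp }
  map_one' := by ext ω; simp
  map_mul' x y := by
    ext ω
    simp [mul_smul, add_assoc, add_comm]

@[simp] lemma toPerm_apply (x : Af T S) (ω : S) : toPerm x ω = x.t • ω + x.b := rfl

/-- projection -/
def pr : Af T S →* T where
  toFun x := x.t
  map_one' := rfl
  map_mul' _ _ := rfl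

/-- translations -/
def trans : Multiplicative S →* Af T S where
  toFun b := ⟨1, Multiplicative.toAdd b⟩
  map_one' := rfl
  map_mul' a b := by ext <;> simp

instance [Group.IsSolvable T] : Group.IsSolvable (Af T S) := by
  refine Group.isSolvable_of_ker_le_range (trans (T := T) (S := S)) pr ?_
  intro x hx
  refine ⟨Multiplicative.ofAdd x.b, ?_⟩
  have hx' : x.t = 1 := hx
  ext
  · simp [trans, hx']
  · simp [trans]

lemma conj_trans (x : Af T S) (c : S) : x * ⟨1, c⟩ * x⁻¹ = ⟨1, x.t • c⟩ := by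
  rw [mul_inv_eq_iff_eq_mul]
  ext
  · simp
  · simp [add_comm]

lemma comm_trans (b : S) (z : Af T S) :
    ⁅(⟨1, b⟩ : Af T S), z⁆ = ⟨1, b - z.t • b⟩ := by
  have h : (⟨1, b⟩ : Af T S) * z = (⟨1, b - z.t • b⟩ : Af T S) * (z * ⟨1, b⟩) := by
    ext
    · simp
    · simp
  have h2 : ⁅(⟨1, b⟩ : Af T S), z⁆ = (⟨1, b⟩ * z) * (z * ⟨1, b⟩)⁻¹ := by
    rw [commutatorElement_def, mul_inv_rev]; group
  rw [h2, h, mul_assoc, mul_inv_cancel, mul_one]

end Af

end Pool.Agent.Helper705.Rad
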