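import Mathlib

set_option autoImplicit false

open scoped commutatorElement

namespace Pool.Agent.Helper705.Rad

/-- weighted shifts -/
@[ext]
structure TT where
  β : ℤ → ℚˣ
  d : ℤ

namespace TT

instance : Mul TT := ⟨fun x y => ⟨fun n => x.β n * y.β (n - x.d), x.d + y.d⟩⟩
instance : One TT := ⟨⟨fun _ => 1, 0⟩⟩
instance : Inv TT := ⟨fun x => ⟨fun n => (x.β (n + x.d))⁻¹, -x.d⟩⟩

@[simp] lemma mul_d (x y : TT) : (x * y).d = x.d + y.d := rfl
@[simp] lemma mul_β (x y : TT) (n : ℤ) : (x * y).β n = x.β n * y.β (n - x.d) := rfl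
@[simp] lemma one_d : (1 : TT).d = 0 := rfl
@[simp] lemma one_β (n : ℤ) : (1 : TT).β n = 1 := rfl
@[simp] lemma inv_d (x : TT) : (x⁻¹).d = -x.d := rfl
@[simp] lemma inv_β (x : TT) (n : ℤ) : (x⁻¹).β n = (x.β (n + x.d))⁻¹ := rfl

lemma ext' {x y : TT} (h1 : ∀ n, x.β n = y.β n) (h2 : x.d = y.d) : x = y :=
  TT.ext (funext h1) h2

instance : Group TT := Group.ofLeftAxioms
  (by
    intro x y z
    refine ext' ?_ ?_
    · intro n; simp [mul_assoc, sub_sub]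
    · simp [add_assoc])
  (by
    intro x
    refine ext' ?_ ?_
    · intro n; simp
    · simp)
  (by
    intro x
    refine ext' ?_ ?_
    · intro n; simp
    · simp)

lemma comm_d (x y : TT) : (⁅x, y⁆).d = 0 := by
  simp [commutatorElement_def]

lemma comm_zero (x y : TT) (hx : x.d = 0) (hy : y.d = 0) : x * y = y * x := by
  refine ext' ?_ ?_
  · intro n; simp [hx, hy, mul_comm]
  · simp [hx, hy]

lemma metab (a b c d : TT) : ⁅⁅a, b⁆, ⁅c, d⁆⁆ = 1 :=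
  commutatorElement_eq_one_iff_mul_comm.mpr (comm_zero _ _ (comm_d _ _) (comm_d _ _))

/-- the module of rational functions on the integers -/
abbrev L3 := ℤ → ℚ

/-- the linear action on sequences -/
def lin (x : TT) : L3 →ₗ[ℚ] L3 where
  toFun f := fun n => (x.β n : ℚ) * f (n - x.d)
  map_add' f g := by funext n; simp [mul_add]
  map_smul' c f := by funext n; simp; ring

@[simp] lemma lin_apply (x : TT) (f : L3) (n : ℤ) : lin x f n = (x.β n : ℚ) * f (n - x.d) := rfl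

lemma lin_mul (x y : TT) (f : L3) : lin (x * y) f = lin x (lin y f) := by
  funext n
  simp [mul_assoc, sub_sub]

lemma lin_one (f : L3) : lin 1 f = f := by
  funext n; simp

lemma lin_inv (x : TT) (f : L3) : lin x⁻¹ (lin x f) = f := by
  rw [← lin_mul, inv_mul_cancel, lin_one]

lemma lin_inv' (x : TT) (f : L3) : lin x (lin x⁻¹ f) = f := by
  rw [← lin_mul, mul_inv_cancel, lin_one]

/-- the base vector -/
def e0 : L3 := fun n => if n = 0 then 1 else 0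

lemma pow_d (y : TT) (m : ℕ) : (y ^ m).d = m * y.d := by
  induction m with
  | zero => simp
  | succ m ih => rw [pow_succ, mul_d, ih]; push_cast; ring

/-- the eigenvector property -/
lemma eigen (x y : TT) (hx : x.d = 0) (hy : y.d = 1) (hxβ : ∀ n : ℕ, 1 ≤ n → (x.β n : ℚ) = n)
    (m : ℕ) (hm : 1 ≤ m) : lin ((y ^ m)⁻¹ * x * y ^ m) e0 = (m : ℚ) • e0 := by
  have h1 : lin x (lin (y ^ m) e0) = (m : ℚ) • lin (y ^ m) e0 := by
    funext n
    simp only [lin_apply, pow_d, hy, hx, mul_one, sub_zero, Pi.smul_apply, smul_eq_mul, e0]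
    by_cases h : n = m
    · subst h
      rw [hxβ m hm]
    · have : n - m ≠ 0 := fun h' => h (by omega)
      simp [this]
  rw [lin_mul, lin_mul, h1, map_smul, lin_inv]

/-- the set of admissible elements -/
def YT (x : TT) : Prop :=
  x.d = 2 ∨ x.d = 5 ∨ (x.d = 0 ∧ ∃ e : ℕ, (e = 0 ∨ e = 1 ∨ e = 3) ∧
    ∀ n : ℕ, 1 ≤ n → (x.β n : ℚ) = (n : ℚ) ^ e)

lemma two_pow_inj {a b : ℤ} (h : (2 : ℚ) ^ a = (2 : ℚ) ^ b) : a = b :=
  zpow_right_injective₀ (by norm_num) (by norm_num) h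

/-- the pinning lemma -/
theorem pin (t x y : TT) (h0 : YT t) (h1 : YT (x * t)) (h3 : YT (x ^ 3 * t))
    (k2 : YT (y ^ 2 * t)) (k5 : YT (y ^ 5 * t)) (n2 : ¬ YT (x ^ 2 * t)) (l1 : ¬ YT (y * t)) :
    x.d = 0 ∧ y.d = 1 ∧ ∀ n : ℕ, 1 ≤ n → (x.β n : ℚ) = n := by
  -- degrees
  have D : ∀ z : TT, YT z → z.d = 0 ∨ z.d = 2 ∨ z.d = 5 := by
    intro z hz
    rcases hz with h | h | ⟨h, _⟩
    · exact Or.inr (Or.inl h)
    · exact Or.inr (Or.inr h)
    · exact Or.inl h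
  have D' : ∀ z : TT, ¬ YT z → z.d ≠ 2 ∧ z.d ≠ 5 := by
    intro z hz
    exact ⟨fun h => hz (Or.inl h), fun h => hz (Or.inr (Or.inl h))⟩
  have d0 := D _ h0
  have d1 := D _ h1
  have d3 := D _ h3
  have dk2 := D _ k2
  have dk5 := D _ k5
  have dn2 := D' _ n2
  have dl1 := D' _ l1
  simp only [mul_d, pow_d] at d1 d3 dk2 dk5 dn2 dl1
  push_cast at d1 d3 dk2 dk5 dn2 dl1
  have t0 : t.d = 0 := by omega
  have x0 : x.d = 0 := by omega
  have y01 : y.d = 0 ∨ y.d = 1 := by omega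
  -- exponents
  have E : ∀ z : TT, z.d = 0 → YT z → ∃ e : ℕ, (e = 0 ∨ e = 1 ∨ e = 3) ∧
      ∀ n : ℕ, 1 ≤ n → (z.β n : ℚ) = (n : ℚ) ^ e := by
    intro z hz h
    rcases h with h | h | ⟨_, h⟩
    · omega
    · omega
    · exact h
  obtain ⟨e0, he0, b0⟩ := E _ t0 h0
  have N : ∀ z : TT, z.d = 0 → ¬ YT z → ∀ e : ℕ, (e = 0 ∨ e = 1 ∨ e = 3) →
      ¬ ∀ n : ℕ, 1 ≤ n → (z.β n : ℚ) = (n : ℚ) ^ e := by
    intro z hz h e he hh
    exact h (Or.inr (Or.inr ⟨hz, e, he, hh⟩))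
  have pw : ∀ (z : TT), z.d = 0 → ∀ (k : ℕ) (n : ℤ), (z ^ k).β n = (z.β n) ^ k := by
    intro z hz k n
    induction k with
    | zero => simp
    | succ k ih =>
      rw [pow_succ, mul_β, ih, pow_d, hz, pow_succ]; simp
  have pm : ∀ (z : TT), z.d = 0 → ∀ (k : ℕ) (n : ℤ),
      (((z ^ k * t).β n : ℚˣ) : ℚ) = (z.β n : ℚ) ^ k * (t.β n : ℚ) := by
    intro z hz k n
    rw [mul_β, pw z hz, pow_d, hz]; simp
  have p1 : ∀ (z : TT), z.d = 0 → ∀ (n : ℤ),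
      (((z * t).β n : ℚˣ) : ℚ) = (z.β n : ℚ) * (t.β n : ℚ) := by
    intro z hz n
    rw [mul_β, hz]; simp
  -- the case y.d = 0 is impossible
  have y1 : y.d = 1 := by
    rcases y01 with y0 | y1
    swap
    · exact y1
    exfalso
    obtain ⟨f2, hf2, c2⟩ := E (y ^ 2 * t) (by simp [pow_d, y0, t0]) k2
    obtain ⟨f5, hf5, c5⟩ := E (y ^ 5 * t) (by simp [pow_d, y0, t0]) k5
    have q : ∀ n : ℕ, 1 ≤ n → (y.β n : ℚ) = (n : ℚ) ^ ((f5 : ℤ) - 2 * f2 + e0) ∧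
        (y.β n : ℚ) ^ 2 = (n : ℚ) ^ ((f2 : ℤ) - e0) ∧
        (y.β n : ℚ) ^ 5 = (n : ℚ) ^ ((f5 : ℤ) - e0) := by
      intro n hn
      have hn0 : (n : ℚ) ≠ 0 := by positivity
      have hy0 : (y.β n : ℚ) ≠ 0 := Units.ne_zero _
      have a0 := b0 n hn
      have a2 := c2 n hn
      have a5 := c5 n hn
      rw [pm y y0, a0] at a2 a5
      have s2 : (y.β n : ℚ) ^ 2 = (n : ℚ) ^ ((f2 : ℤ) - e0) := by
        rw [zpow_sub₀ hn0, zpow_natCast, zpow_natCast]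
        field_simp
        exact a2
      have s5 : (y.β n : ℚ) ^ 5 = (n : ℚ) ^ ((f5 : ℤ) - e0) := by
        rw [zpow_sub₀ hn0, zpow_natCast, zpow_natCast]
        field_simp
        exact a5
      refine ⟨?_, s2, s5⟩
      have e1 : (y.β n : ℚ) = (y.β n : ℚ) ^ 5 / ((y.β n : ℚ) ^ 2) ^ 2 := by
        field_simp
      rw [e1, s2, s5, ← zpow_natCast ((n : ℚ) ^ ((f2 : ℤ) - e0)) 2, ← zpow_mul, ← zpow_sub₀ hn0]
      congr 1
      push_cast
      ring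
    obtain ⟨q1, q2, q5⟩ := q 2 (by norm_num)
    rw [q1, ← zpow_natCast, ← zpow_mul] at q2 q5
    have r2 := two_pow_inj q2
    have r5 := two_pow_inj q5
    push_cast at r2 r5
    have hk : (f5 : ℤ) - 2 * f2 + e0 = 0 := by omega
    refine N (y * t) (by simp [y0, t0]) l1 e0 he0 ?_
    intro n hn
    rw [p1 y y0, b0 n hn, (q n hn).1, hk, zpow_zero, one_mul]
  refine ⟨x0, y1, ?_⟩
  obtain ⟨f1, hf1, c1⟩ := E (x * t) (by simp [x0, t0]) h1
  obtain ⟨f3, hf3, c3⟩ := E (x ^ 3 * t) (by simp [pow_d, x0, t0]) h3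
  have q : ∀ n : ℕ, 1 ≤ n → (x.β n : ℚ) = (n : ℚ) ^ ((f1 : ℤ) - e0) ∧
      (x.β n : ℚ) ^ 3 = (n : ℚ) ^ ((f3 : ℤ) - e0) := by
    intro n hn
    have hn0 : (n : ℚ) ≠ 0 := by positivity
    have a0 := b0 n hn
    have a1 := c1 n hn
    have a3 := c3 n hn
    rw [p1 x x0, a0] at a1
    rw [pm x x0, a0] at a3
    constructor
    · rw [zpow_sub₀ hn0, zpow_natCast, zpow_natCast]
      field_simp
      exact a1
    · rw [zpow_sub₀ hn0, zpow_natCast, zpow_natCast]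
      field_simp
      exact a3
  obtain ⟨q1, q3⟩ := q 2 (by norm_num)
  rw [q1, ← zpow_natCast, ← zpow_mul] at q3
  have r3 := two_pow_inj q3
  push_cast at r3
  have N2 := N (x ^ 2 * t) (by simp [pow_d, x0, t0]) n2
  have hval : ∀ n : ℕ, 1 ≤ n → (((x ^ 2 * t).β n : ℚˣ) : ℚ) =
      (n : ℚ) ^ (2 * ((f1 : ℤ) - e0) + e0) := by
    intro n hn
    have hn0 : (n : ℚ) ≠ 0 := by positivity
    rw [pm x x0, b0 n hn, (q n hn).1, zpow_add₀ hn0, zpow_natCast, mul_comm (2 : ℤ), zpow_mul]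
    norm_cast
  have hne : f1 ≠ e0 := by
    intro h
    refine N2 e0 he0 ?_
    intro n hn
    rw [hval n hn, h]; simp
  have hfe : f1 = 1 ∧ e0 = 0 := by omega
  intro n hn
  rw [(q n hn).1, hfe.1, hfe.2]; norm_num

end TT

end Pool.Agent.Helper705.Rad
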