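import Mathlib
import Pool.Agent.Helper705.SRF.Form
import Pool.Agent.Helper705.Hopf.HForm
import Pool.Agent.Helper705.Rad.RAff

set_option autoImplicit false

namespace Pool.Agent.Helper705.Rad

open Pool.Agent.Helper705.SRF Pool.Agent.Helper705.Hopf

section labels

variable {T S : Type} [Group T] [AddCommGroup S] [DistribMulAction T S]

/-- label space -/
abbrev Lb (S : Type) := S →₀ ZMod 2

lemma cancel2 (c : Lb S) : c + c = 0 := by
  ext z; exact zmod2_add_self _

lemma negL (c : Lb S) : -c = c := by
  ext z; simp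

open Classical in
/-- the kernel of the label form -/
noncomputable def lB (ω ω' : S) : Lb S := if ω = ω' then 0 else Finsupp.single (ω' - ω) 1

/-- a triangular kernel -/
noncomputable def lL [LinearOrder S] (ω ω' : S) : Lb S :=
  if ω < ω' then Finsupp.single (ω' - ω) 1 else 0

lemma subc (h2 : ∀ a : S, a + a = 0) (a b : S) : a - b = b - a := by
  have h := h2 (a - b)
  have h' : a - b = -(a - b) := eq_neg_of_add_eq_zero_left h
  rw [h']; abel

lemma lL_sub [LinearOrder S] (h2 : ∀ a : S, a + a = 0) (ω ω' : S) :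
    lL ω ω' - lL ω' ω = lB ω ω' := by
  unfold lL lB
  rcases lt_trichotomy ω ω' with h | h | h
  · simp [h, h.ne, h.not_gt]
  · subst h; simp
  · simp only [h.not_gt, h, h.ne', if_true, if_false, zero_sub, negL]
    rw [subc h2]

lemma lB_symm (h2 : ∀ a : S, a + a = 0) (ω ω' : S) : lB ω ω' = lB ω' ω := by
  by_cases h : ω = ω'
  · subst h; rfl
  · simp [lB, h, Ne.symm h, subc h2 ω ω']

/-- action on labels -/
noncomputable def sc (u : T) : Lb S →+ Lb S := Finsupp.mapDomain.addMonoidHom (fun x => u • x)

@[simp] lemma sc_single (u : T) (x : S) (a : ZMod 2) :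
    sc u (Finsupp.single x a) = Finsupp.single (u • x) a := by
  simp [sc]

lemma sc_mul (u v : T) (c : Lb S) : sc (u * v) c = sc u (sc v c) := by
  induction c using Finsupp.induction_linear with
  | zero => simp
  | add p q hp hq => simp [hp, hq]
  | single x a => simp [mul_smul]

lemma sc_one (c : Lb S) : sc (1 : T) c = c := by
  induction c using Finsupp.induction_linear with
  | zero => simp
  | add p q hp hq => simp [hp, hq]
  | single x a => simp

lemma lB_perm (x : Af T S) (ω ω' : S) :
    lB (Af.toPerm x ω) (Af.toPerm x ω') = sc x.t (lB ω ω') := by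
  by_cases h : ω = ω'
  · subst h; simp [lB]
  · have h' : Af.toPerm x ω ≠ Af.toPerm x ω' := fun e => h ((Af.toPerm x).injective e)
    unfold lB
    rw [if_neg h, if_neg h', sc_single]
    congr 1
    simp only [Af.toPerm_apply, smul_sub]; abel

/-- the label form -/
noncomputable def btt : (S →₀ ZMod 2) →ₗ[ZMod 2] (S →₀ ZMod 2) →ₗ[ZMod 2] Lb S := BC lB

lemma btt_sub_swap [LinearOrder S] (h2 : ∀ a : S, a + a = 0) (m m' : S →₀ ZMod 2) :
    BC lL m m' - BC lL m' m = btt m m' := by
  refine BC_ext (K := lB) (f := fun m m' => BC lL m m' - BC lL m' m) ?_ ?_ ?_ m m'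
  · intro a b c; simp; abel
  · intro a b c; simp; abel
  · intro ω ω' a b
    simp only [BC_single]
    rw [← lL_sub h2, smul_sub, mul_comm b a]

lemma btt_symm (h2 : ∀ a : S, a + a = 0) (m m' : S →₀ ZMod 2) : btt m' m = btt m m' := by
  refine BC_ext (K := lB) (f := fun m m' => btt m' m) ?_ ?_ ?_ m m'
  · intro a b c; simp
  · intro a b c; simp
  · intro ω ω' a b
    simp only [btt, BC_single]
    rw [lB_symm h2, mul_comm]

lemma sc_smul (u : T) (a : ZMod 2) (c : Lb S) : sc u (a • c) = a • sc u c := by
  induction c using Finsupp.induction_linear with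
  | zero => simp
  | add p q hp hq => simp [hp, hq]
  | single x b =>
    rw [Finsupp.smul_single, sc_single, sc_single, Finsupp.smul_single]

lemma btt_perm (x : Af T S) (m m' : S →₀ ZMod 2) :
    btt (Finsupp.mapDomain (Af.toPerm x) m) (Finsupp.mapDomain (Af.toPerm x) m') =
      sc x.t (btt m m') := by
  have e1 := BC_ext (K := fun ω ω' => sc x.t (lB ω ω'))
    (f := fun m m' : S →₀ ZMod 2 => btt (Finsupp.mapDomain (Af.toPerm x) m)
      (Finsupp.mapDomain (Af.toPerm x) m')) ?_ ?_ ?_ m m'
  have e2 := BC_ext (K := fun ω ω' => sc x.t (lB ω ω'))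
    (f := fun m m' : S →₀ ZMod 2 => sc x.t (btt m m')) ?_ ?_ ?_ m m'
  · exact e1.trans e2.symm
  · intro a b c; simp
  · intro a b c; simp
  · intro ω ω' a b
    simp only [btt, BC_single]
    rw [sc_smul]
  · intro a b c; simp [Finsupp.mapDomain_add]
  · intro a b c; simp [Finsupp.mapDomain_add]
  · intro ω ω' a b
    simp only [Finsupp.mapDomain_single, btt, BC_single]
    rw [lB_perm]

lemma btt_self (h2 : ∀ a : S, a + a = 0) (m : S →₀ ZMod 2) : btt m m = 0 := by
  refine quad_ext' (fun m => btt m m) (fun _ => 0) (by simp) ?_ rfl (by simp) ?_ m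
  · intro a b
    simp only [map_add, LinearMap.add_apply]
    rw [btt_symm h2 a b]
    have := cancel2 (btt a b)
    calc btt a a + btt a b + (btt a b + btt b b) = btt a a + (btt a b + btt a b) + btt b b := by abel
      _ = _ := by rw [this, add_zero]
  · intro ω a
    simp [btt, lB]

lemma btt_transl (h2 : ∀ a : S, a + a = 0) (v : S) (hv : v ≠ 0) (m : S →₀ ZMod 2) :
    btt m (Finsupp.mapDomain (Af.toPerm (⟨1, v⟩ : Af T S)) m) = Finsupp.single v (aug m) := by
  set σ := Af.toPerm (⟨1, v⟩ : Af T S) with hσ
  have hinv : ∀ ω, σ (σ ω) = ω := by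
    intro ω
    simp only [hσ, Af.toPerm_apply, one_smul]
    rw [add_assoc, h2, add_zero]
  have hperm : ∀ a b, btt (Finsupp.mapDomain σ a) (Finsupp.mapDomain σ b) = btt a b := by
    intro a b
    rw [hσ, btt_perm]
    simp [sc_one]
  refine quad_ext' (fun m => btt m (Finsupp.mapDomain σ m)) (fun m => Finsupp.single v (aug m))
    (by simp) ?_ (by simp) (by intro a b; simp) ?_ m
  · intro a b
    have hcomp : Finsupp.mapDomain σ (Finsupp.mapDomain σ b) = b := by
      rw [← Finsupp.mapDomain_comp]
      have : (σ ∘ σ : S → S) = id := by funext ω; exact hinv ω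
      rw [this, Finsupp.mapDomain_id]
    have e1 : btt b (Finsupp.mapDomain σ a) = btt a (Finsupp.mapDomain σ b) := by
      rw [btt_symm h2]
      have := hperm a (Finsupp.mapDomain σ b)
      rw [hcomp] at this
      exact this
    simp only [Finsupp.mapDomain_add, map_add, LinearMap.add_apply]
    rw [e1]
    have := cancel2 (btt a (Finsupp.mapDomain σ b))
    calc btt a (Finsupp.mapDomain σ a) + btt a (Finsupp.mapDomain σ b) +
        (btt a (Finsupp.mapDomain σ b) + btt b (Finsupp.mapDomain σ b))
        = btt a (Finsupp.mapDomain σ a) + (btt a (Finsupp.mapDomain σ b) +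
        btt a (Finsupp.mapDomain σ b)) + btt b (Finsupp.mapDomain σ b) := by abel
      _ = _ := by rw [this, add_zero]
  · intro ω a
    have hne : ω ≠ σ ω := by
      intro e
      simp only [hσ, Af.toPerm_apply, one_smul] at e
      exact hv (by simpa using e)
    have hk : lB ω (σ ω) = Finsupp.single v 1 := by
      unfold lB
      rw [if_neg hne]
      congr 1
      simp only [hσ, Af.toPerm_apply, one_smul]; abel
    simp [btt, hk, zmod2_sq]

end labels

end Pool.Agent.Helper705.Rad
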