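import Mathlib
import Pool.Agent.Helper705.SRF.Ext
import Pool.Agent.Helper705.SRF.Wr
import Pool.Agent.Helper705.Rad.RForm

set_option autoImplicit false

open scoped commutatorElement

namespace Pool.Agent.Helper705.Rad

open Pool.Agent.Helper705.SRF Pool.Agent.Helper705.Hopf

variable (T S : Type) [Group T] [AddCommGroup S] [DistribMulAction T S]

/-- the wreath-like group over the affine group -/
abbrev WA := Wr (Af.toPerm (T := T) (S := S))

/-- the free group on it -/
abbrev FA := FF (Af.toPerm (T := T) (S := S))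

/-- the preimage of the bottom layer -/
noncomputable abbrev NA : Subgroup (FA T S) := NN (Af.toPerm (T := T) (S := S))

/-- its commutator subgroup -/
noncomputable abbrev DA : Subgroup (FA T S) := ⁅NA T S, NA T S⁆

lemma DA_le : DA T S ≤ NA T S := Subgroup.commutator_le_left _ _

/-- the right part of an element of the free group -/
noncomputable def aff : FA T S →* Af T S :=
  (SemidirectProduct.rightHom : WA T S →* Af T S).comp (ev (Af.toPerm (T := T) (S := S)))

/-- the linear part of an element of the free group -/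
noncomputable def tau : FA T S →* T := (Af.pr (T := T) (S := S)).comp (aff T S)

lemma aff_NA (n : FA T S) (hn : n ∈ NA T S) : aff T S n = 1 := hn.1

lemma tau_DA (d : FA T S) (hd : d ∈ DA T S) : tau T S d = 1 := by
  have h : aff T S d = 1 := aff_NA T S d (DA_le T S hd)
  unfold tau
  rw [MonoidHom.comp_apply, h, map_one]

/-- the label of an element of `NA` -/
noncomputable def labA (n : NA T S) : S →₀ ZMod 2 := Multiplicative.toAdd (lab _ n)

lemma labA_D (d : FA T S) (hd : d ∈ DA T S) : labA T S ⟨d, DA_le T S hd⟩ = 0 := by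
  have h1 : d ∈ Subgroup.map (NA T S).subtype (commutator (NA T S)) := by
    rw [Subgroup.map_subtype_commutator]; exact hd
  obtain ⟨n, hn, rfl⟩ := h1
  have h2 := Abelianization.commutator_subset_ker (lab (Af.toPerm (T := T) (S := S))) hn
  have h3 : lab (Af.toPerm (T := T) (S := S)) n = 1 := h2
  change Multiplicative.toAdd (lab (Af.toPerm (T := T) (S := S)) n) = 0
  rw [h3]; rfl

theorem exists_theta (h2 : ∀ a : S, a + a = 0) : ∃ Θ : DA T S →* Multiplicative (Lb S),
    (∀ (a b : NA T S) (h : ⁅(a : FA T S), (b : FA T S)⁆ ∈ DA T S),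
      Multiplicative.toAdd (Θ ⟨_, h⟩) = btt (labA T S a) (labA T S b)) ∧
    (∀ (f d : FA T S) (hd : d ∈ DA T S) (h : f * d * f⁻¹ ∈ DA T S),
      Multiplicative.toAdd (Θ ⟨_, h⟩) = sc (tau T S f) (Multiplicative.toAdd (Θ ⟨d, hd⟩))) := by
  classical
  let _ : LinearOrder S := IsWellOrder.linearOrder (WellOrderingRel (α := S))
  have _ : IsFreeGroup (NA T S) := subgroupIsFreeOfIsFree (NA T S)
  obtain ⟨ρ, hρ⟩ := Ext.exists_lift (BCAdd (lL (S := S))) (lab (Af.toPerm (T := T) (S := S)))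
  have hρ0 : ∀ (d : FA T S) (hd : d ∈ DA T S), (ρ ⟨d, DA_le T S hd⟩).fst = 0 := by
    intro d hd
    rw [hρ]
    exact labA_D T S d hd
  let Θ : DA T S →* Multiplicative (Lb S) :=
    { toFun := fun d => Multiplicative.ofAdd (ρ ⟨d.1, DA_le T S d.2⟩).snd
      map_one' := by
        have : (⟨((1 : DA T S) : FA T S), DA_le T S (1 : DA T S).2⟩ : NA T S) = 1 := rfl
        rw [this, map_one]; rfl
      map_mul' := by
        intro a b
        have : (⟨((a * b : DA T S) : FA T S), DA_le T S (a * b).2⟩ : NA T S) =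
          ⟨a.1, DA_le T S a.2⟩ * ⟨b.1, DA_le T S b.2⟩ := rfl
        rw [this, map_mul, Ext.mul_snd, hρ0 a.1 a.2]
        simp }
  have T1 : ∀ (a b : NA T S) (h : ⁅(a : FA T S), (b : FA T S)⁆ ∈ DA T S),
      Multiplicative.toAdd (Θ ⟨_, h⟩) = btt (labA T S a) (labA T S b) := by
    intro a b h
    have e : (⟨⁅(a : FA T S), (b : FA T S)⁆, DA_le T S h⟩ : NA T S) = ⁅a, b⁆ := by
      apply Subtype.ext
      simp [commutatorElement_def]
    change (ρ ⟨⁅(a : FA T S), (b : FA T S)⁆, DA_le T S h⟩).snd = _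
    rw [e, map_commutatorElement, Ext.comm_eq, hρ, hρ, BCAdd_apply, BCAdd_apply,
      btt_sub_swap h2]
    rfl
  refine ⟨Θ, T1, ?_⟩
  intro f d hd
  have hnorm : ∀ x ∈ DA T S, f * x * f⁻¹ ∈ DA T S := fun x hx =>
    (inferInstance : (DA T S).Normal).conj_mem x hx f
  suffices H : ∀ h : f * d * f⁻¹ ∈ DA T S, Multiplicative.toAdd (Θ ⟨_, h⟩) =
      sc (tau T S f) (Multiplicative.toAdd (Θ ⟨d, hd⟩)) from H
  have hd' := hd
  change d ∈ ⁅NA T S, NA T S⁆ at hd'
  rw [Subgroup.commutator_def] at hd'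
  induction hd' using Subgroup.closure_induction with
  | mem x hx =>
    intro h
    obtain ⟨a, ha, b, hb, rfl⟩ := hx
    have e1 := T1 ⟨a, ha⟩ ⟨b, hb⟩ hd
    have h' : ⁅((MulAut.conjNormal f (⟨a, ha⟩ : NA T S) : NA T S) : FA T S),
        ((MulAut.conjNormal f (⟨b, hb⟩ : NA T S) : NA T S) : FA T S)⁆ ∈ DA T S :=
      Subgroup.commutator_mem_commutator (SetLike.coe_mem _) (SetLike.coe_mem _)
    have e2 := T1 (MulAut.conjNormal f ⟨a, ha⟩) (MulAut.conjNormal f ⟨b, hb⟩) h'
    have e3 : (⟨f * ⁅a, b⁆ * f⁻¹, h⟩ : DA T S) = ⟨_, h'⟩ := by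
      apply Subtype.ext
      simp only [MulAut.conjNormal_apply, commutatorElement_def]
      group
    rw [e3, e2, e1]
    unfold labA
    rw [lab_conj, lab_conj]
    exact btt_perm _ _ _
  | one =>
    intro h
    have e1 : (⟨f * 1 * f⁻¹, h⟩ : DA T S) = 1 := by apply Subtype.ext; simp
    have e2 : (⟨1, hd⟩ : DA T S) = 1 := rfl
    rw [e1, e2, map_one]; simp
  | mul x y hx hy ihx ihy =>
    intro h
    have hx' : x ∈ DA T S := by change x ∈ ⁅NA T S, NA T S⁆; rw [Subgroup.commutator_def]; exact hx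
    have hy' : y ∈ DA T S := by change y ∈ ⁅NA T S, NA T S⁆; rw [Subgroup.commutator_def]; exact hy
    have e1 : (⟨f * (x * y) * f⁻¹, h⟩ : DA T S) = ⟨_, hnorm x hx'⟩ * ⟨_, hnorm y hy'⟩ := by
      apply Subtype.ext; simp
    have e2 : (⟨x * y, hd⟩ : DA T S) = ⟨x, hx'⟩ * ⟨y, hy'⟩ := rfl
    rw [e1, e2, Θ.map_mul, Θ.map_mul, toAdd_mul, toAdd_mul, ihx hx' (hnorm x hx'),
      ihy hy' (hnorm y hy'), map_add]
  | inv x hx ihx =>
    intro h
    have hx' : x ∈ DA T S := by change x ∈ ⁅NA T S, NA T S⁆; rw [Subgroup.commutator_def]; exact hx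
    have e1 : (⟨f * x⁻¹ * f⁻¹, h⟩ : DA T S) = (⟨_, hnorm x hx'⟩)⁻¹ := by
      apply Subtype.ext; simp [mul_assoc]
    have e2 : (⟨x⁻¹, hd⟩ : DA T S) = (⟨x, hx'⟩)⁻¹ := rfl
    rw [e1, e2, Θ.map_inv, Θ.map_inv, toAdd_inv, toAdd_inv, ihx hx' (hnorm x hx'), map_neg]

end Pool.Agent.Helper705.Rad
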