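import Mathlib
import Pool.Agent.Helper705.Rad.RTheta
import Pool.Agent.Helper705.Rad.RT

set_option autoImplicit false

open scoped commutatorElement

namespace Pool.Agent.Helper705.Rad

open Pool.Agent.Helper705.SRF Pool.Agent.Helper705.Hopf

variable {S : Type} [AddCommGroup S] [DistribMulAction TT S]

/-- sign of a residue modulo two -/
def sgq (a : ZMod 2) : ℚ := if a = 0 then 1 else -1

lemma sgq_zero : sgq 0 = 1 := rfl

lemma z2_cases (a : ZMod 2) : a = 0 ∨ a = 1 := by revert a; decide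

lemma sgq_one : sgq 1 = -1 := by
  unfold sgq; rw [if_neg (by decide)]

lemma sgq_add (a b : ZMod 2) : sgq (a + b) = sgq a * sgq b := by
  have h11 : (1 : ZMod 2) + 1 = 0 := by decide
  rcases z2_cases a with rfl | rfl <;> rcases z2_cases b with rfl | rfl <;>
    simp [sgq_one, sgq_zero, h11]

lemma sgq_sq (a : ZMod 2) : sgq a * sgq a = 1 := by
  rcases z2_cases a with rfl | rfl <;> simp [sgq_one, sgq_zero]

open Classical in
/-- total mass on a set of labels -/
noncomputable def laY (Y : Set S) : Lb S →ₗ[ZMod 2] ZMod 2 :=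
  Finsupp.linearCombination (ZMod 2) (fun v => if v ∈ Y then 1 else 0)

open Classical in
lemma laY_single (Y : Set S) (v : S) (a : ZMod 2) :
    laY Y (Finsupp.single v a) = if v ∈ Y then a else 0 := by
  simp [laY]

variable (S) in
/-- package of data -/
structure Dat where
  Θ : DA TT S →* Multiplicative (Lb S)
  T1 : ∀ (a b : NA TT S) (h : ⁅(a : FA TT S), (b : FA TT S)⁆ ∈ DA TT S),
      Multiplicative.toAdd (Θ ⟨_, h⟩) = btt (labA TT S a) (labA TT S b)
  T2 : ∀ (f d : FA TT S) (hd : d ∈ DA TT S) (h : f * d * f⁻¹ ∈ DA TT S),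
      Multiplicative.toAdd (Θ ⟨_, h⟩) = sc (tau TT S f) (Multiplicative.toAdd (Θ ⟨d, hd⟩))
  Y : Set S

namespace Dat

variable (D : Dat S)

/-- the additive value -/
noncomputable def th (d : FA TT S) (hd : d ∈ DA TT S) : Lb S := Multiplicative.toAdd (D.Θ ⟨d, hd⟩)

lemma conj_mem {d : FA TT S} (hd : d ∈ DA TT S) (f : FA TT S) : f * d * f⁻¹ ∈ DA TT S :=
  (inferInstance : (DA TT S).Normal).conj_mem d hd f

lemma th_conj (f d : FA TT S) (hd : d ∈ DA TT S) :
    D.th (f * d * f⁻¹) (conj_mem hd f) = sc (tau TT S f) (D.th d hd) :=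
  D.T2 f d hd _

lemma th_mul (d e : FA TT S) (hd : d ∈ DA TT S) (he : e ∈ DA TT S) :
    D.th (d * e) (mul_mem hd he) = D.th d hd + D.th e he := by
  have : (⟨d * e, mul_mem hd he⟩ : DA TT S) = ⟨d, hd⟩ * ⟨e, he⟩ := rfl
  unfold th
  rw [this, D.Θ.map_mul, toAdd_mul]

lemma th_inv (d : FA TT S) (hd : d ∈ DA TT S) : D.th d⁻¹ (inv_mem hd) = D.th d hd := by
  have : (⟨d⁻¹, inv_mem hd⟩ : DA TT S) = (⟨d, hd⟩)⁻¹ := rfl
  unfold th
  rw [this, D.Θ.map_inv, toAdd_inv, negL]

lemma th_comm (a b : FA TT S) (ha : a ∈ NA TT S) (hb : b ∈ NA TT S) (h : ⁅a, b⁆ ∈ DA TT S) :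
    D.th ⁅a, b⁆ h = btt (labA TT S ⟨a, ha⟩) (labA TT S ⟨b, hb⟩) := D.T1 ⟨a, ha⟩ ⟨b, hb⟩ h

/-- the kernel -/
noncomputable def W : Subgroup (FA TT S) := D.Θ.ker.map (DA TT S).subtype

lemma mem_W (d : FA TT S) : d ∈ D.W ↔ ∃ hd : d ∈ DA TT S, D.th d hd = 0 := by
  constructor
  · rintro ⟨⟨e, he⟩, h1, rfl⟩
    exact ⟨he, h1⟩
  · rintro ⟨hd, h⟩
    exact ⟨⟨d, hd⟩, h, rfl⟩

instance : D.W.Normal := by
  constructor
  intro d hd f
  rw [mem_W] at hd ⊢
  obtain ⟨h1, h2⟩ := hd
  exact ⟨conj_mem h1 f, by rw [th_conj D f d h1, h2, map_zero]⟩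

/-- the acting group -/
abbrev G1 := FA TT S ⧸ D.W

/-- class of an element -/
noncomputable abbrev cl : FA TT S →* D.G1 := QuotientGroup.mk' D.W

lemma comm_W (d g : FA TT S) (hd : d ∈ DA TT S) (hg : tau TT S g = 1) : ⁅g, d⁆ ∈ D.W := by
  rw [mem_W]
  have h1 : ⁅g, d⁆ = (g * d * g⁻¹) * d⁻¹ := by rw [commutatorElement_def]
  have h2 : ⁅g, d⁆ ∈ DA TT S := by rw [h1]; exact mul_mem (conj_mem hd g) (inv_mem hd)
  refine ⟨h2, ?_⟩
  have h3 : D.th ⁅g, d⁆ h2 = D.th (g * d * g⁻¹) (conj_mem hd g) + D.th d⁻¹ (inv_mem hd) := by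
    rw [← th_mul]
    congr 1
  rw [h3, th_conj D g d hd, th_inv D d hd, hg, sc_one, cancel2]

/-- linear part on the quotient -/
noncomputable def t1 : D.G1 →* TT := QuotientGroup.lift D.W (tau TT S) (by
  intro x hx
  rw [mem_W] at hx
  obtain ⟨h, _⟩ := hx
  exact tau_DA TT S x h)

lemma t1_cl (f : FA TT S) : D.t1 (D.cl f) = tau TT S f := rfl

lemma t1_D (d : FA TT S) (hd : d ∈ DA TT S) : D.t1 (D.cl d) = 1 := tau_DA TT S d hd

/-- the weight vector -/
noncomputable def kap (w : D.G1) : TT.L3 := TT.lin (D.t1 w)⁻¹ TT.e0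

lemma kap_mul (w g : D.G1) : D.kap (w * g⁻¹) = TT.lin (D.t1 g) (D.kap w) := by
  unfold kap
  rw [← TT.lin_mul]
  congr 1
  simp

/-- sign function -/
noncomputable def sg (d : FA TT S) (hd : d ∈ DA TT S) (w : D.G1) : ℚ :=
  sgq (laY D.Y (sc (D.t1 w) (D.th d hd)))

/-- diagonal functions -/
def Dg (f : D.G1 → ℚ) : Prop :=
  ∀ (d : FA TT S) (hd : d ∈ DA TT S) (w : D.G1), f (w * D.cl d) = D.sg d hd w * f w

/-- the module of equivariant functions -/
noncomputable def Cm : AddSubgroup (D.G1 → ℚ) where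
  carrier := {f | D.Dg f}
  zero_mem' := by intro d hd w; simp
  add_mem' := by
    intro a b ha hb d hd w
    simp only [Pi.add_apply, ha d hd w, hb d hd w]; ring
  neg_mem' := by
    intro a ha d hd w
    simp only [Pi.neg_apply, ha d hd w]; ring

lemma sg_mul (d : FA TT S) (hd : d ∈ DA TT S) (g : FA TT S) (w : D.G1) :
    D.sg (g * d * g⁻¹) (conj_mem hd g) w = D.sg d hd (w * D.cl g) := by
  unfold sg
  rw [th_conj, ← sc_mul, map_mul, t1_cl]

/-- translation on the module -/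
noncomputable def tr (g : D.G1) : D.Cm →+ D.Cm where
  toFun φ := ⟨fun w => φ.1 (w * g), by
    intro d hd w
    obtain ⟨f, rfl⟩ := QuotientGroup.mk'_surjective D.W g
    have h := φ.2 (f⁻¹ * d * f⁻¹⁻¹) (conj_mem hd f⁻¹) (w * D.cl f)
    change φ.1 (w * D.cl d * D.cl f) = _ * φ.1 (w * D.cl f)
    have e1 : w * D.cl d * D.cl f = w * D.cl f * D.cl (f⁻¹ * d * f⁻¹⁻¹) := by
      rw [mul_assoc, mul_assoc, ← map_mul, ← map_mul]
      congr 2
      group
    rw [e1, h, D.sg_mul d hd f⁻¹]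
    congr 2
    rw [mul_assoc, ← map_mul, mul_inv_cancel, map_one, mul_one]⟩
  map_zero' := rfl
  map_add' _ _ := rfl

@[simp] lemma tr_apply (g : D.G1) (φ : D.Cm) (w : D.G1) : (D.tr g φ).1 w = φ.1 (w * g) := rfl

/-- translation on finitely supported functions -/
noncomputable def trF (g : D.G1) : (D.G1 →₀ ℚ) →+ (D.G1 →₀ ℚ) :=
  Finsupp.mapDomain.addMonoidHom (fun w => w * g⁻¹)

@[simp] lemma trF_single (g w : D.G1) (a : ℚ) :
    D.trF g (Finsupp.single w a) = Finsupp.single (w * g⁻¹) a := by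
  simp [trF]

/-- the pairing -/
noncomputable def pr (φ : D.G1 →₀ ℚ) (f : D.G1 → ℚ) : TT.L3 :=
  Finsupp.linearCombination ℚ (fun w => f w • D.kap w) φ

lemma pr_add_left (φ φ' : D.G1 →₀ ℚ) (f : D.G1 → ℚ) : D.pr (φ + φ') f = D.pr φ f + D.pr φ' f := by
  simp [pr]

lemma pr_neg_left (φ : D.G1 →₀ ℚ) (f : D.G1 → ℚ) : D.pr (-φ) f = - D.pr φ f := by
  simp [pr]

lemma pr_sub_left (φ φ' : D.G1 →₀ ℚ) (f : D.G1 → ℚ) : D.pr (φ - φ') f = D.pr φ f - D.pr φ' f := by
  simp [pr]

lemma pr_zero_left (f : D.G1 → ℚ) : D.pr 0 f = 0 := by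
  simp [pr]

lemma pr_single (w : D.G1) (a : ℚ) (f : D.G1 → ℚ) :
    D.pr (Finsupp.single w a) f = (a * f w) • D.kap w := by
  simp [pr, mul_smul]

lemma pr_ext {φ : D.G1 →₀ ℚ} {f : D.G1 → ℚ} {L : (D.G1 →₀ ℚ) → TT.L3}
    (h0 : L 0 = 0) (h1 : ∀ a b, L (a + b) = L a + L b)
    (h2 : ∀ w a, L (Finsupp.single w a) = (a * f w) • D.kap w) : L φ = D.pr φ f := by
  induction φ using Finsupp.induction_linear with
  | zero => rw [h0, pr_zero_left]
  | add p q hp hq => rw [h1, hp, hq, pr_add_left]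
  | single w a => rw [h2, pr_single]

lemma pr_add_right (φ : D.G1 →₀ ℚ) (f g : D.G1 → ℚ) : D.pr φ (f + g) = D.pr φ f + D.pr φ g := by
  symm
  refine D.pr_ext (L := fun φ => D.pr φ f + D.pr φ g) ?_ ?_ ?_
  · simp [pr_zero_left]
  · intro a b; simp only [pr_add_left]; abel
  · intro w a; simp only [pr_single, Pi.add_apply]; rw [← add_smul]; congr 1; ring

lemma pr_trF (g : D.G1) (φ : D.G1 →₀ ℚ) (f : D.G1 → ℚ) :
    D.pr (D.trF g φ) f = TT.lin (D.t1 g) (D.pr φ (fun w => f (w * g⁻¹))) := by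
  have h1 : D.pr (D.trF g φ) f =
      Finsupp.linearCombination ℚ (fun w => f (w * g⁻¹) • TT.lin (D.t1 g) (D.kap w)) φ := by
    induction φ using Finsupp.induction_linear with
    | zero => simp [pr]
    | add p q hp hq => rw [map_add, pr_add_left, hp, hq, map_add]
    | single w a =>
      rw [trF_single, pr_single, kap_mul]
      simp [mul_smul]
  have h2 : TT.lin (D.t1 g) (D.pr φ (fun w => f (w * g⁻¹))) =
      Finsupp.linearCombination ℚ (fun w => f (w * g⁻¹) • TT.lin (D.t1 g) (D.kap w)) φ := by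
    clear h1
    induction φ using Finsupp.induction_linear with
    | zero => simp [pr]
    | add p q hp hq => rw [pr_add_left, map_add, hp, hq, map_add]
    | single w a =>
      rw [pr_single, map_smul]
      simp [mul_smul]
  rw [h1, h2]

/-- the module -/
abbrev Mm := (D.G1 →₀ ℚ) × D.Cm

/-- the form on the module -/
noncomputable def gam3 : D.Mm →+ D.Mm →+ TT.L3 :=
  AddMonoidHom.mk' (fun a => AddMonoidHom.mk' (fun b => D.pr a.1 b.2.1)
    (by intro x y; exact D.pr_add_right _ _ _))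
    (by intro x y; ext1 z; exact D.pr_add_left _ _ _)

lemma gam3_apply (a b : D.Mm) : D.gam3 a b = D.pr a.1 b.2.1 := rfl

/-- the class two group -/
abbrev E3 := Ext D.gam3

/-- action of one element on the module -/
noncomputable def trM (g : D.G1) : D.Mm →+ D.Mm where
  toFun a := (D.trF g a.1, D.tr g a.2)
  map_zero' := by simp
  map_add' a b := by simp

@[simp] lemma trM_fst (g : D.G1) (a : D.Mm) : (D.trM g a).1 = D.trF g a.1 := rfl
@[simp] lemma trM_snd (g : D.G1) (a : D.Mm) : (D.trM g a).2 = D.tr g a.2 := rfl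

lemma trF_mul (g h : D.G1) (φ : D.G1 →₀ ℚ) : D.trF (g * h) φ = D.trF g (D.trF h φ) := by
  induction φ using Finsupp.induction_linear with
  | zero => simp
  | add p q hp hq => simp only [map_add, hp, hq]
  | single w a => simp [mul_assoc]

lemma trF_one (φ : D.G1 →₀ ℚ) : D.trF 1 φ = φ := by
  induction φ using Finsupp.induction_linear with
  | zero => simp
  | add p q hp hq => simp only [map_add, hp, hq]
  | single w a => simp

lemma trM_mul (g h : D.G1) (a : D.Mm) : D.trM (g * h) a = D.trM g (D.trM h a) := by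
  apply Prod.ext
  · exact D.trF_mul g h a.1
  · apply Subtype.ext
    funext w
    change a.2.1 (w * (g * h)) = a.2.1 (w * g * h)
    rw [mul_assoc]

lemma trM_one (a : D.Mm) : D.trM 1 a = a := by
  apply Prod.ext
  · exact D.trF_one a.1
  · apply Subtype.ext
    funext w
    change a.2.1 (w * 1) = a.2.1 w
    rw [mul_one]

lemma gam3_tr (g : D.G1) (a b : D.Mm) :
    D.gam3 (D.trM g a) (D.trM g b) = TT.lin (D.t1 g) (D.gam3 a b) := by
  rw [gam3_apply, gam3_apply, trM_fst, pr_trF]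
  congr 2
  funext w
  change b.2.1 (w * g⁻¹ * g) = b.2.1 w
  rw [inv_mul_cancel_right]

/-- action of one element on the class two group -/
noncomputable def aE (g : D.G1) (x : D.E3) : D.E3 := ⟨D.trM g x.fst, TT.lin (D.t1 g) x.snd⟩

lemma aE_mul (g : D.G1) (x y : D.E3) : D.aE g (x * y) = D.aE g x * D.aE g y := by
  apply Ext.ext
  · change D.trM g (x.fst + y.fst) = D.trM g x.fst + D.trM g y.fst
    rw [map_add]
  · change TT.lin (D.t1 g) (x.snd + y.snd + D.gam3 x.fst y.fst) =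
      TT.lin (D.t1 g) x.snd + TT.lin (D.t1 g) y.snd + D.gam3 (D.trM g x.fst) (D.trM g y.fst)
    rw [gam3_tr, map_add, map_add]

lemma aE_comp (g h : D.G1) (x : D.E3) : D.aE (g * h) x = D.aE g (D.aE h x) := by
  apply Ext.ext
  · exact D.trM_mul g h x.fst
  · change TT.lin (D.t1 (g * h)) x.snd = TT.lin (D.t1 g) (TT.lin (D.t1 h) x.snd)
    rw [map_mul, TT.lin_mul]

lemma aE_one (x : D.E3) : D.aE 1 x = x := by
  apply Ext.ext
  · exact D.trM_one x.fst
  · change TT.lin (D.t1 1) x.snd = x.snd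
    rw [map_one, TT.lin_one]

/-- the action on the class two group -/
noncomputable def act3 : D.G1 →* MulAut D.E3 where
  toFun g :=
    { toFun := D.aE g
      invFun := D.aE g⁻¹
      left_inv := by intro x; rw [← aE_comp, inv_mul_cancel, aE_one]
      right_inv := by intro x; rw [← aE_comp, mul_inv_cancel, aE_one]
      map_mul' := D.aE_mul g }
  map_one' := by apply MulEquiv.ext; intro x; exact D.aE_one x
  map_mul' g h := by apply MulEquiv.ext; intro x; exact D.aE_comp g h x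

lemma act3_apply (g : D.G1) (x : D.E3) : D.act3 g x = D.aE g x := rfl

/-- the final group -/
abbrev GG := D.E3 ⋊[D.act3] D.G1

/-- membership in the bottom group with given module part -/
def InE (x : D.GG) : Prop := x.right = 1

lemma inE_iff (x : D.GG) (h : D.InE x) : x = SemidirectProduct.inl x.left := by
  apply SemidirectProduct.ext
  · rfl
  · exact h

lemma conj_right (g x : D.GG) (h : D.InE x) : D.InE (g * x * g⁻¹) := by
  unfold InE at *
  simp [h]

lemma mulE (x y : D.GG) (hx : D.InE x) (hy : D.InE y) : D.InE (x * y) ∧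
    (x * y).left = x.left * y.left := by
  unfold InE at *
  constructor
  · simp [hx, hy]
  · simp [hx]

lemma invE (x : D.GG) (hx : D.InE x) : D.InE x⁻¹ ∧ (x⁻¹).left = (x.left)⁻¹ := by
  unfold InE at *
  constructor
  · simp [hx]
  · simp [hx]

/-- the module part of a conjugate -/
lemma conj_fst (g x : D.GG) (h : D.InE x) : (g * x * g⁻¹).left.fst = D.trM g.right x.left.fst := by
  have h' : x.right = 1 := h
  have e : g * x * g⁻¹ = (g * x * g⁻¹ : D.GG) := rfl
  rw [SemidirectProduct.mul_left, SemidirectProduct.mul_left, SemidirectProduct.mul_right, h',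
    mul_one, SemidirectProduct.inv_left, Ext.mul_fst, Ext.mul_fst]
  rw [← MulAut.mul_apply, ← map_mul, mul_inv_cancel, map_one, MulAut.one_apply, Ext.inv_fst]
  rw [act3_apply]
  change g.left.fst + D.trM g.right x.left.fst + -g.left.fst = _
  abel

/-- conjugation on the centre -/
lemma conj_cen (g : D.GG) (c : TT.L3) :
    g * SemidirectProduct.inl (⟨0, c⟩ : D.E3) * g⁻¹ =
      SemidirectProduct.inl (⟨0, TT.lin (D.t1 g.right) c⟩ : D.E3) := by
  rw [mul_inv_eq_iff_eq_mul]
  apply SemidirectProduct.ext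
  · apply Ext.ext
    · simp [act3_apply, aE]
    · simp [act3_apply, aE, add_comm]
  · simp

end Dat

end Pool.Agent.Helper705.Rad
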