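import Mathlib
import Pool.Agent.Helper705.Rad.RMod

set_option autoImplicit false

open scoped commutatorElement

namespace Pool.Agent.Helper705.Rad

open Pool.Agent.Helper705.SRF Pool.Agent.Helper705.Hopf

section words

variable {G : Type} [Group G]

/-- double commutator -/
def dcW (a b c d : G) : G := ⁅⁅a, b⁆, ⁅c, d⁆⁆

/-- the label word -/
def cW (a : ℕ → G) : G := dcW (a 0) (a 1) (a 2) (a 3)

/-- the inner word -/
def rW (a : ℕ → G) : G := ⁅dcW (a 4) (a 5) (a 6) (a 7) ^ 2, dcW (a 8) (a 9) (a 10) (a 11) ^ 2⁆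

/-- the acting words -/
def bW (a : ℕ → G) (g : G) : G :=
  ⁅rW a, (g * cW a * g⁻¹) * rW a * (g * cW a * g⁻¹)⁻¹⁆

/-- the module words -/
def mW (a : ℕ → G) (z : G) : G := ⁅dcW z (a 13) (a 16) (a 13), bW a 1⁆

/-- the operator words -/
def EW (a : ℕ → G) : List (Bool × G) → G → G
  | [], m => m
  | (true, g) :: l, m => bW a g * EW a l m * (bW a g)⁻¹ * (EW a l m)⁻¹
  | (false, g) :: l, m => EW a l m * (bW a g * EW a l m * (bW a g)⁻¹)

lemma EW_true (a : ℕ → G) (g : G) (l : List (Bool × G)) (m : G) :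
    EW a ((true, g) :: l) m = bW a g * EW a l m * (bW a g)⁻¹ * (EW a l m)⁻¹ := rfl

lemma EW_false (a : ℕ → G) (g : G) (l : List (Bool × G)) (m : G) :
    EW a ((false, g) :: l) m = EW a l m * (bW a g * EW a l m * (bW a g)⁻¹) := rfl

/-- the list of literals -/
def lits (a : ℕ → G) : List (Bool × G) :=
  [(true, 1), (true, a 12), (true, a 12 ^ 3), (true, a 13 ^ 2), (true, a 13 ^ 5),
    (false, a 12 ^ 2), (false, a 13)]

/-- the main word -/
def vW (a : ℕ → G) : G := ⁅EW a (lits a) (mW a (a 14)), mW a (a 15)⁆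

/-- the conjugating words -/
def sW (a : ℕ → G) (m : ℕ) : G := (a 13 ^ m)⁻¹ * a 12 * a 13 ^ m

variable {H : Type} [Group H] (φ : G →* H)

lemma map_dcW (a b c d : G) : φ (dcW a b c d) = dcW (φ a) (φ b) (φ c) (φ d) := by
  simp [dcW, map_commutatorElement]

lemma map_cW (x : ℕ → G) : φ (cW x) = cW (fun i => φ (x i)) := by
  simp [cW, map_dcW]

lemma map_rW (x : ℕ → G) : φ (rW x) = rW (fun i => φ (x i)) := by
  simp [rW, map_commutatorElement, map_dcW]

lemma map_bW (x : ℕ → G) (g : G) : φ (bW x g) = bW (fun i => φ (x i)) (φ g) := by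
  simp [bW, map_commutatorElement, map_rW, map_cW]

lemma map_mW (x : ℕ → G) (z : G) : φ (mW x z) = mW (fun i => φ (x i)) (φ z) := by
  simp [mW, map_commutatorElement, map_bW, map_dcW]

lemma map_EW (x : ℕ → G) (l : List (Bool × G)) (m : G) :
    φ (EW x l m) = EW (fun i => φ (x i)) (l.map (fun p => (p.1, φ p.2))) (φ m) := by
  induction l with
  | nil => rfl
  | cons p l ih =>
    rcases p with ⟨b, g⟩
    rcases b
    · simp [EW, ih, map_bW]
    · simp [EW, ih, map_bW]

lemma map_lits (x : ℕ → G) : (lits x).map (fun p => (p.1, φ p.2)) = lits (fun i => φ (x i)) := by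
  simp [lits]

lemma map_vW (x : ℕ → G) : φ (vW x) = vW (fun i => φ (x i)) := by
  unfold vW
  rw [map_commutatorElement, map_EW, map_lits, map_mW, map_mW]

lemma map_sW (x : ℕ → G) (m : ℕ) : φ (sW x m) = sW (fun i => φ (x i)) m := by
  simp [sW]

end words

section labels

variable {S : Type} [AddCommGroup S] [DistribMulAction TT S]

lemma af_pr_dcW (a b c d : Af TT S) : (dcW a b c d).t = 1 := by
  have h := map_dcW (Af.pr (T := TT) (S := S)) a b c d
  exact h.trans (TT.metab _ _ _ _)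

lemma af_dcW (a b c d : Af TT S) : dcW a b c d = ⟨1, (dcW a b c d).b⟩ :=
  Af.ext (af_pr_dcW a b c d) rfl

lemma af_dcW_sq (h2 : ∀ a : S, a + a = 0) (a b c d : Af TT S) : dcW a b c d ^ 2 = 1 := by
  rw [af_dcW, pow_two]
  apply Af.ext
  · simp
  · simp [h2]

lemma rW_mem (h2 : ∀ a : S, a + a = 0) (x : ℕ → FA TT S) : rW x ∈ NA TT S := by
  have h : ∀ a b c d : WA TT S, ∃ h : HB S, dcW a b c d ^ 2 = SemidirectProduct.inl h := by
    intro a b c d
    have : dcW a b c d ^ 2 ∈ (SemidirectProduct.rightHom : WA TT S →* Af TT S).ker := by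
      rw [MonoidHom.mem_ker, map_pow, map_dcW]
      exact af_dcW_sq h2 _ _ _ _
    rw [← SemidirectProduct.range_inl_eq_ker_rightHom] at this
    obtain ⟨h, hh⟩ := this
    exact ⟨h, hh.symm⟩
  change ev _ (rW x) ∈ botM _
  rw [map_rW]
  obtain ⟨h1, e1⟩ := h (ev _ (x 4)) (ev _ (x 5)) (ev _ (x 6)) (ev _ (x 7))
  obtain ⟨h2, e2⟩ := h (ev _ (x 8)) (ev _ (x 9)) (ev _ (x 10)) (ev _ (x 11))
  rw [rW, e1, e2, ← map_commutatorElement]
  refine ⟨rfl, ?_⟩
  rw [SemidirectProduct.left_inl, Ext.comm_eq]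

lemma bW_mem (h2 : ∀ a : S, a + a = 0) (x : ℕ → FA TT S) (g : FA TT S) : bW x g ∈ DA TT S :=
  Subgroup.commutator_mem_commutator (rW_mem h2 x)
    ((inferInstance : (NA TT S).Normal).conj_mem _ (rW_mem h2 x) _)

/-- the label vector -/
noncomputable def cvec (x : ℕ → FA TT S) : S := (cW (fun i => aff TT S (x i))).b

/-- the parity -/
noncomputable def par (h2 : ∀ a : S, a + a = 0) (x : ℕ → FA TT S) : ZMod 2 :=
  aug (labA TT S ⟨rW x, rW_mem h2 x⟩)

open Classical in
lemma th_bW (h2 : ∀ a : S, a + a = 0) (D : Dat S) (x : ℕ → FA TT S) (g : FA TT S) :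
    D.th (bW x g) (bW_mem h2 x g) = if cvec x = 0 then 0 else
      Finsupp.single (tau TT S g • cvec x) (par h2 x) := by
  set u := g * cW x * g⁻¹ with hu
  have hconj : u * rW x * u⁻¹ ∈ NA TT S :=
    (inferInstance : (NA TT S).Normal).conj_mem _ (rW_mem h2 x) u
  have h1 : D.th (bW x g) (bW_mem h2 x g) = btt (labA TT S ⟨rW x, rW_mem h2 x⟩)
      (labA TT S ⟨u * rW x * u⁻¹, hconj⟩) :=
    D.th_comm (rW x) (u * rW x * u⁻¹) (rW_mem h2 x) hconj _
  have h3 : labA TT S ⟨u * rW x * u⁻¹, hconj⟩ =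
      Finsupp.mapDomain (Af.toPerm (aff TT S u)) (labA TT S ⟨rW x, rW_mem h2 x⟩) := by
    have e : (⟨u * rW x * u⁻¹, hconj⟩ : NA TT S) =
        MulAut.conjNormal u (⟨rW x, rW_mem h2 x⟩ : NA TT S) := by
      apply Subtype.ext; simp
    rw [e]
    exact lab_conj _ _ _
  have h4 : aff TT S u = ⟨1, tau TT S g • cvec x⟩ := by
    have e1 : aff TT S (cW x) = ⟨1, cvec x⟩ := by
      rw [map_cW]
      exact af_dcW _ _ _ _
    rw [hu, map_mul, map_mul, map_inv, e1, Af.conj_trans]
    rfl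
  rw [h1, h3, h4]
  by_cases hv : cvec x = 0
  · rw [if_pos hv, hv, smul_zero]
    have : (⟨1, 0⟩ : Af TT S) = 1 := rfl
    rw [this, map_one, mapDomain_one_perm, btt_self h2]
  · rw [if_neg hv, btt_transl h2 _ ?_]
    · rfl
    · intro h
      apply hv
      have := congrArg (fun s => (tau TT S g)⁻¹ • s) h
      simpa using this

open Classical in
lemma sg_bW (h2 : ∀ a : S, a + a = 0) (D : Dat S) (h0 : (0 : S) ∉ D.Y) (x : ℕ → FA TT S)
    (g : FA TT S) (w : D.G1) :
    D.sg (bW x g) (bW_mem h2 x g) w =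
      sgq (if (D.t1 w * tau TT S g) • cvec x ∈ D.Y then par h2 x else 0) := by
  unfold Dat.sg
  rw [th_bW h2 D x g]
  by_cases hv : cvec x = 0
  · rw [if_pos hv, hv, smul_zero, if_neg h0]; simp
  · rw [if_neg hv, sc_single, laY_single, mul_smul]

end labels

namespace Dat

variable {S : Type} [AddCommGroup S] [DistribMulAction TT S] (D : Dat S)

lemma sg_sq (d : FA TT S) (hd : d ∈ DA TT S) (w : D.G1) : D.sg d hd w * D.sg d hd w = 1 :=
  sgq_sq _

lemma sg_inv_t (d : FA TT S) (hd : d ∈ DA TT S) (w w' : D.G1) (h : D.t1 w = D.t1 w') :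
    D.sg d hd w = D.sg d hd w' := by
  unfold sg; rw [h]

lemma t1_mul_D (d : FA TT S) (hd : d ∈ DA TT S) (w : D.G1) : D.t1 (w * D.cl d) = D.t1 w := by
  rw [map_mul, t1_D D d hd, mul_one]

lemma Dg_inv (f : D.G1 → ℚ) (hf : D.Dg f) (d : FA TT S) (hd : d ∈ DA TT S) (w : D.G1) :
    f (w * (D.cl d)⁻¹) = D.sg d hd w * f w := by
  have h := hf d hd (w * (D.cl d)⁻¹)
  rw [inv_mul_cancel_right] at h
  have e : D.sg d hd (w * (D.cl d)⁻¹) = D.sg d hd w := by
    apply sg_inv_t
    rw [map_mul, map_inv, t1_D D d hd, inv_one, mul_one]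
  rw [e] at h
  rw [h, ← mul_assoc, sg_sq, one_mul]

lemma Dg_sg_mul (f : D.G1 → ℚ) (hf : D.Dg f) (F : TT → ℚ) :
    D.Dg (fun w => F (D.t1 w) * f w) := by
  intro d hd w
  change F (D.t1 (w * D.cl d)) * f (w * D.cl d) = D.sg d hd w * (F (D.t1 w) * f w)
  rw [t1_mul_D D d hd, hf d hd w]; ring

lemma pr_trF_D (d : FA TT S) (hd : d ∈ DA TT S) (φ : D.G1 →₀ ℚ) (f : D.G1 → ℚ) (hf : D.Dg f) :
    D.pr (D.trF (D.cl d) φ) f = D.pr φ (fun w => D.sg d hd w * f w) := by
  rw [pr_trF, t1_D D d hd, TT.lin_one]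
  congr 1
  funext w
  exact D.Dg_inv f hf d hd w

lemma pr_neg_right (φ : D.G1 →₀ ℚ) (f : D.G1 → ℚ) : D.pr φ (fun w => - f w) = - D.pr φ f := by
  have h := D.pr_add_right φ f (fun w => - f w)
  have e : f + (fun w => - f w) = fun _ => 0 := by funext w; simp
  have z : D.pr φ (fun _ => 0) = 0 := by
    have h' := D.pr_add_right φ (fun _ => 0) (fun _ => 0)
    have e' : ((fun _ => 0) + (fun _ => 0) : D.G1 → ℚ) = fun _ => 0 := by funext w; simp
    rw [e'] at h'
    exact left_eq_add.mp h'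
  rw [e, z] at h
  exact eq_neg_of_add_eq_zero_right h.symm

/-- the weight function of a list of literals -/
noncomputable def eps (h2 : ∀ a : S, a + a = 0) (f : ℕ → FA TT S) :
    List (Bool × FA TT S) → D.G1 → ℚ
  | [], _ => 1
  | (true, g) :: l, w => (D.sg (bW f g) (bW_mem h2 f g) w - 1) * eps h2 f l w
  | (false, g) :: l, w => (D.sg (bW f g) (bW_mem h2 f g) w + 1) * eps h2 f l w

/-- the weight function through the linear part -/
lemma eps_t (h2 : ∀ a : S, a + a = 0) (f : ℕ → FA TT S) (l : List (Bool × FA TT S))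
    (w w' : D.G1) (h : D.t1 w = D.t1 w') : D.eps h2 f l w = D.eps h2 f l w' := by
  induction l with
  | nil => rfl
  | cons p l ih =>
    rcases p with ⟨b, g⟩
    rcases b <;> simp only [eps, ih, D.sg_inv_t _ _ w w' h]

lemma Dg_mul (F f : D.G1 → ℚ) (hF : ∀ w w', D.t1 w = D.t1 w' → F w = F w') (hf : D.Dg f) :
    D.Dg (fun w => F w * f w) := by
  intro d hd w
  change F (w * D.cl d) * f (w * D.cl d) = D.sg d hd w * (F w * f w)
  rw [hF _ w (t1_mul_D D d hd w), hf d hd w]; ring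

lemma Dg_sg (h : D.G1 → ℚ) (hh : D.Dg h) (d : FA TT S) (hd : d ∈ DA TT S) (c : ℚ) :
    D.Dg (fun w => (D.sg d hd w + c) * h w) := by
  refine D.Dg_mul (fun w => D.sg d hd w + c) h ?_ hh
  intro w w' hw
  rw [D.sg_inv_t d hd w w' hw]

lemma EW_spec (h2 : ∀ a : S, a + a = 0) (a : ℕ → D.GG) (f : ℕ → FA TT S)
    (hf : ∀ i, (a i).right = D.cl (f i)) (l : List (Bool × D.GG)) (l' : List (Bool × FA TT S))
    (hl : List.Forall₂ (fun p q => p.1 = q.1 ∧ p.2.right = D.cl q.2) l l')
    (m : D.GG) (hm : D.InE m) :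
    D.InE (EW a l m) ∧
    (∀ h : D.G1 → ℚ, D.Dg h → D.pr (EW a l m).left.fst.1 h =
      D.pr m.left.fst.1 (fun w => D.eps h2 f l' w * h w)) ∧
    (∀ w, (EW a l m).left.fst.2.1 w = D.eps h2 f l' w * m.left.fst.2.1 w) := by
  have hbr : ∀ (g : D.GG) (g' : FA TT S), g.right = D.cl g' →
      (bW a g).right = D.cl (bW f g') := by
    intro g g' hg
    have e1 := map_bW (SemidirectProduct.rightHom : D.GG →* D.G1) a g
    have e2 := map_bW (D.cl) f g'
    have e3 : (fun i => (SemidirectProduct.rightHom : D.GG →* D.G1) (a i)) =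
        (fun i => D.cl (f i)) := by
      funext i; exact hf i
    have e4 : (SemidirectProduct.rightHom : D.GG →* D.G1) g = D.cl g' := hg
    rw [e3, e4] at e1
    exact e1.trans e2.symm
  induction hl with
  | nil =>
    refine ⟨hm, ?_, ?_⟩
    · intro h _
      simp [EW, eps]
    · intro w
      simp [EW, eps]
  | @cons p q l l' hpq hl ih =>
    obtain ⟨i1, i2, i3⟩ := ih
    rcases p with ⟨b, g⟩
    rcases q with ⟨b', g'⟩
    obtain ⟨hb, hg⟩ := hpq
    have hb' : b = b' := hb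
    subst hb'
    have hbg := hbr g g' hg
    set x := EW a l m with hx
    have hc := D.conj_right (bW a g) x i1
    have hcf := D.conj_fst (bW a g) x i1
    rw [hbg] at hcf
    rcases b
    · -- negative literal
      have e : EW a ((false, g) :: l) m = x * (bW a g * x * (bW a g)⁻¹) := by
        rw [EW_false]
      obtain ⟨j1, j2⟩ := D.mulE x (bW a g * x * (bW a g)⁻¹) i1 hc
      rw [e]
      refine ⟨j1, ?_, ?_⟩
      · intro h hh
        rw [j2, Ext.mul_fst, hcf, Prod.fst_add, trM_fst, pr_add_left,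
          pr_trF_D D (bW f g') (bW_mem h2 f g') _ h hh, ← pr_add_right]
        have e2 : (h + fun w => D.sg (bW f g') (bW_mem h2 f g') w * h w) =
            fun w => (D.sg (bW f g') (bW_mem h2 f g') w + 1) * h w := by
          funext w; simp only [Pi.add_apply]; ring
        rw [e2, i2 _ (D.Dg_sg h hh (bW f g') (bW_mem h2 f g') 1)]
        congr 1
        funext w
        simp only [eps]; ring
      · intro w
        rw [j2, Ext.mul_fst, hcf]
        change x.left.fst.2.1 w + x.left.fst.2.1 (w * D.cl (bW f g')) = _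
        rw [x.left.fst.2.2 (bW f g') (bW_mem h2 f g') w, i3]
        simp only [eps]; ring
    · -- positive literal
      have e : EW a ((true, g) :: l) m = bW a g * x * (bW a g)⁻¹ * x⁻¹ := by
        rw [EW_true]
      obtain ⟨k1, k2⟩ := D.invE x i1
      obtain ⟨j1, j2⟩ := D.mulE (bW a g * x * (bW a g)⁻¹) x⁻¹ hc k1
      rw [e]
      refine ⟨j1, ?_, ?_⟩
      · intro h hh
        rw [j2, k2, Ext.mul_fst, hcf, Ext.inv_fst, Prod.fst_add, trM_fst, Prod.fst_neg,
          pr_add_left, pr_neg_left, pr_trF_D D (bW f g') (bW_mem h2 f g') _ h hh,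
          ← pr_neg_right, ← pr_add_right]
        have e2 : ((fun w => D.sg (bW f g') (bW_mem h2 f g') w * h w) + fun w => - h w) =
            fun w => (D.sg (bW f g') (bW_mem h2 f g') w + (-1)) * h w := by
          funext w; simp only [Pi.add_apply]; ring
        rw [e2, i2 _ (D.Dg_sg h hh (bW f g') (bW_mem h2 f g') (-1))]
        congr 1
        funext w
        simp only [eps]; ring
      · intro w
        rw [j2, k2, Ext.mul_fst, hcf, Ext.inv_fst]
        change x.left.fst.2.1 (w * D.cl (bW f g')) + - x.left.fst.2.1 w = _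
        rw [x.left.fst.2.2 (bW f g') (bW_mem h2 f g') w, i3]
        simp only [eps]; ring

lemma mW_InE (h2 : ∀ a : S, a + a = 0) (a : ℕ → D.GG) (z : D.GG) : D.InE (mW a z) := by
  choose f hf using fun i => QuotientGroup.mk'_surjective D.W (a i).right
  obtain ⟨z', hz'⟩ := QuotientGroup.mk'_surjective D.W z.right
  have e1 := map_mW (SemidirectProduct.rightHom : D.GG →* D.G1) a z
  have e2 := map_mW (D.cl) f z'
  have e3 : (fun i => (SemidirectProduct.rightHom : D.GG →* D.G1) (a i)) =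
      (fun i => D.cl (f i)) := by
    funext i; exact (hf i).symm
  have e4 : (SemidirectProduct.rightHom : D.GG →* D.G1) z = D.cl z' := hz'.symm
  rw [e3, e4] at e1
  have e5 : (mW a z).right = D.cl (mW f z') := e1.trans e2.symm
  unfold InE
  rw [e5]
  refine (QuotientGroup.eq_one_iff _).mpr ?_
  refine comm_W D (bW f 1) _ (bW_mem h2 f 1) ?_
  rw [map_dcW]
  exact TT.metab _ _ _ _

lemma comm_InE (x y : D.GG) (hx : D.InE x) (hy : D.InE y) : ⁅x, y⁆ = SemidirectProduct.inl
    (⟨0, D.pr x.left.fst.1 y.left.fst.2.1 - D.pr y.left.fst.1 x.left.fst.2.1⟩ : D.E3) := by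
  rw [D.inE_iff x hx, D.inE_iff y hy, ← map_commutatorElement, Ext.comm_eq]
  rfl

/-- the value of the main word -/
lemma vW_val (h2 : ∀ a : S, a + a = 0) (a : ℕ → D.GG) (f : ℕ → FA TT S)
    (hf : ∀ i, (a i).right = D.cl (f i)) :
    vW a = SemidirectProduct.inl (⟨0,
      D.pr (mW a (a 14)).left.fst.1
        (fun w => D.eps h2 f (lits f) w * (mW a (a 15)).left.fst.2.1 w) -
      D.pr (mW a (a 15)).left.fst.1
        (fun w => D.eps h2 f (lits f) w * (mW a (a 14)).left.fst.2.1 w)⟩ : D.E3) := by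
  have hl : List.Forall₂ (fun (p : Bool × D.GG) (q : Bool × FA TT S) =>
      p.1 = q.1 ∧ p.2.right = D.cl q.2) (lits a) (lits f) := by
    unfold lits
    repeat' apply List.Forall₂.cons
    all_goals first
      | exact List.Forall₂.nil
      | skip
    all_goals refine ⟨rfl, ?_⟩
    · simp
    · exact hf 12
    · have := congrArg (fun g => g ^ 3) (hf 12)
      rw [map_pow]
      exact (map_pow (SemidirectProduct.rightHom : D.GG →* D.G1) (a 12) 3).trans this
    · have := congrArg (fun g => g ^ 2) (hf 13)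
      rw [map_pow]
      exact (map_pow (SemidirectProduct.rightHom : D.GG →* D.G1) (a 13) 2).trans this
    · have := congrArg (fun g => g ^ 5) (hf 13)
      rw [map_pow]
      exact (map_pow (SemidirectProduct.rightHom : D.GG →* D.G1) (a 13) 5).trans this
    · have := congrArg (fun g => g ^ 2) (hf 12)
      rw [map_pow]
      exact (map_pow (SemidirectProduct.rightHom : D.GG →* D.G1) (a 12) 2).trans this
    · exact hf 13
  obtain ⟨s1, s2, s3⟩ := D.EW_spec h2 a f hf _ _ hl (mW a (a 14)) (D.mW_InE h2 a (a 14))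
  unfold vW
  rw [D.comm_InE _ _ s1 (D.mW_InE h2 a (a 15)), s2 _ (mW a (a 15)).left.fst.2.2]
  have e : (EW a (lits a) (mW a (a 14))).left.fst.2.1 =
      fun w => D.eps h2 f (lits f) w * (mW a (a 14)).left.fst.2.1 w := funext s3
  rw [e]

/-- values are eigenvectors -/
lemma pr_eig (σ : TT) (c : ℚ) (E h : D.G1 → ℚ)
    (hE : ∀ w, E w ≠ 0 → TT.lin σ (D.kap w) = c • D.kap w) (φ : D.G1 →₀ ℚ) :
    TT.lin σ (D.pr φ (fun w => E w * h w)) = c • D.pr φ (fun w => E w * h w) := by
  induction φ using Finsupp.induction_linear with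
  | zero => simp [pr_zero_left]
  | add p q hp hq => rw [pr_add_left, map_add, hp, hq, smul_add]
  | single w a =>
    rw [pr_single]
    by_cases hw : E w = 0
    · simp [hw]
    · rw [map_smul, hE w hw, smul_comm]

/-- the pinning hypothesis -/
def Pin (Y : Set S) : Prop := ∀ (w x y : TT) (c : S), w • c ∈ Y → (w * x) • c ∈ Y →
  (w * x ^ 3) • c ∈ Y → (w * y ^ 2) • c ∈ Y → (w * y ^ 5) • c ∈ Y → (w * x ^ 2) • c ∉ Y →
  (w * y) • c ∉ Y → ∀ m : ℕ, 1 ≤ m →
    TT.lin ((y ^ m)⁻¹ * x * y ^ m) (TT.lin w⁻¹ TT.e0) = (m : ℚ) • TT.lin w⁻¹ TT.e0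

lemma eps_eig (h2 : ∀ a : S, a + a = 0) (h0 : (0 : S) ∉ D.Y) (hP : Pin D.Y) (f : ℕ → FA TT S)
    (m : ℕ) (hm : 1 ≤ m) (w : D.G1) (hw : D.eps h2 f (lits f) w ≠ 0) :
    TT.lin (tau TT S (sW f m)) (D.kap w) = (m : ℚ) • D.kap w := by
  classical
  unfold lits at hw
  simp only [eps, mul_one] at hw
  have hw' := hw
  simp only [mul_ne_zero_iff] at hw'
  obtain ⟨p0, p1, p3, q2, q5, n2, n1⟩ := hw'
  have P : ∀ g : FA TT S, D.sg (bW f g) (bW_mem h2 f g) w - 1 ≠ 0 →
      (D.t1 w * tau TT S g) • cvec f ∈ D.Y ∧ par h2 f = 1 := by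
    intro g hg
    rw [sg_bW h2 D h0] at hg
    by_cases h : (D.t1 w * tau TT S g) • cvec f ∈ D.Y
    · refine ⟨h, ?_⟩
      rw [if_pos h] at hg
      rcases z2_cases (par h2 f) with h' | h'
      · rw [h'] at hg; simp [sgq_zero] at hg
      · exact h'
    · rw [if_neg h] at hg; simp [sgq_zero] at hg
  have hpar := (P _ p0).2
  have N : ∀ g : FA TT S, D.sg (bW f g) (bW_mem h2 f g) w + 1 ≠ 0 →
      (D.t1 w * tau TT S g) • cvec f ∉ D.Y := by
    intro g hg h
    rw [sg_bW h2 D h0, if_pos h, hpar, sgq_one] at hg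
    norm_num at hg
  have a0 := (P _ p0).1
  have a1 := (P _ p1).1
  have a3 := (P _ p3).1
  have b2 := (P _ q2).1
  have b5 := (P _ q5).1
  have c2 := N _ n2
  have c1 := N _ n1
  rw [map_one, mul_one] at a0
  rw [map_pow] at a3 b2 b5 c2
  have := hP (D.t1 w) (tau TT S (f 12)) (tau TT S (f 13)) (cvec f) a0 a1 a3 b2 b5 c2 c1 m hm
  unfold kap
  rw [← this]
  congr 1
  unfold sW
  simp

theorem law (h2 : ∀ a : S, a + a = 0) (h0 : (0 : S) ∉ D.Y) (hP : Pin D.Y)
    (a : ℕ → D.GG) (m : ℕ) (hm : 1 ≤ m) : ((sW a m)⁻¹ * vW a * sW a m) ^ m = vW a := by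
  choose f hf using fun i => QuotientGroup.mk'_surjective D.W (a i).right
  have hf' : ∀ i, (a i).right = D.cl (f i) := fun i => (hf i).symm
  rw [D.vW_val h2 a f hf']
  set c := D.pr (mW a (a 14)).left.fst.1
        (fun w => D.eps h2 f (lits f) w * (mW a (a 15)).left.fst.2.1 w) -
      D.pr (mW a (a 15)).left.fst.1
        (fun w => D.eps h2 f (lits f) w * (mW a (a 14)).left.fst.2.1 w) with hc
  have hs : (sW a m).right = D.cl (sW f m) := by
    have e1 := map_sW (SemidirectProduct.rightHom : D.GG →* D.G1) a m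
    have e2 := map_sW (D.cl) f m
    have e3 : (fun i => (SemidirectProduct.rightHom : D.GG →* D.G1) (a i)) =
        (fun i => D.cl (f i)) := by
      funext i; exact hf' i
    rw [e3] at e1
    exact e1.trans e2.symm
  have heig : TT.lin (tau TT S (sW f m)) c = (m : ℚ) • c := by
    rw [hc, map_sub, smul_sub]
    rw [D.pr_eig _ (m : ℚ) _ _ (fun w hw => D.eps_eig h2 h0 hP f m hm w hw),
      D.pr_eig _ (m : ℚ) _ _ (fun w hw => D.eps_eig h2 h0 hP f m hm w hw)]
  have h1 := D.conj_cen (sW a m)⁻¹ c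
  rw [inv_inv] at h1
  rw [h1]
  have h3 : D.t1 ((sW a m)⁻¹ : D.GG).right = (tau TT S (sW f m))⁻¹ := by
    have : ((sW a m)⁻¹ : D.GG).right = (D.cl (sW f m))⁻¹ := by
      rw [← hs]
      exact map_inv (SemidirectProduct.rightHom : D.GG →* D.G1) (sW a m)
    rw [this, map_inv, t1_cl]
  rw [h3, ← map_pow]
  congr 1
  have hpow : ∀ (c' : TT.L3) (k : ℕ), (⟨0, c'⟩ : D.E3) ^ k = ⟨0, (k : ℚ) • c'⟩ := by
    intro c' k
    induction k with
    | zero =>
      apply Ext.ext
      · rfl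
      · simp
    | succ k ih =>
      rw [pow_succ, ih]
      apply Ext.ext
      · simp
      · simp [add_smul]
  rw [hpow]
  apply Ext.ext
  · rfl
  · change (m : ℚ) • TT.lin (tau TT S (sW f m))⁻¹ c = c
    rw [← map_smul, ← heig, TT.lin_inv]

theorem comm_law (h2 : ∀ a : S, a + a = 0) (a a' : ℕ → D.GG) : ⁅vW a, vW a'⁆ = 1 := by
  choose f hf using fun i => QuotientGroup.mk'_surjective D.W (a i).right
  choose f' hf' using fun i => QuotientGroup.mk'_surjective D.W (a' i).right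
  rw [D.vW_val h2 a f (fun i => (hf i).symm), D.vW_val h2 a' f' (fun i => (hf' i).symm),
    ← map_commutatorElement, Ext.comm_eq]
  simp only [map_zero, sub_zero]
  rfl

end Dat

end Pool.Agent.Helper705.Rad
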