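import Mathlib
import Pool.Agent.Helper705.Rad.RLaw

set_option autoImplicit false

open scoped commutatorElement

namespace Pool.Agent.Helper705.Rad

open Pool.Agent.Helper705.SRF Pool.Agent.Helper705.Hopf

/-- the space on which affine maps act -/
abbrev SS := TT →₀ ZMod 2

noncomputable instance actSS : DistribMulAction TT SS where
  smul τ f := Finsupp.mapDomain (fun x => τ * x) f
  one_smul f := by
    change Finsupp.mapDomain (fun x => 1 * x) f = f
    simp only [one_mul]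
    exact Finsupp.mapDomain_id
  mul_smul a b f := by
    change Finsupp.mapDomain (fun x => a * b * x) f =
      Finsupp.mapDomain (fun x => a * x) (Finsupp.mapDomain (fun x => b * x) f)
    rw [← Finsupp.mapDomain_comp]
    congr 1
    funext x
    exact mul_assoc a b x
  smul_zero a := Finsupp.mapDomain_zero
  smul_add a f g := Finsupp.mapDomain_add

lemma smul_def' (τ : TT) (f : SS) : τ • f = Finsupp.mapDomain (fun x => τ * x) f := rfl

@[simp] lemma smul_sg (τ x : TT) (a : ZMod 2) :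
    τ • (Finsupp.single x a : SS) = Finsupp.single (τ * x) a := by
  rw [smul_def', Finsupp.mapDomain_single]

lemma smul_ap (τ : TT) (f : SS) (x : TT) : (τ • f) x = f (τ⁻¹ * x) := by
  have h : x = τ * (τ⁻¹ * x) := by group
  conv_lhs => rw [h]
  rw [smul_def']
  exact Finsupp.mapDomain_apply (mul_right_injective τ) f (τ⁻¹ * x)

lemma two_SS (a : SS) : a + a = 0 := by
  ext z; exact zmod2_add_self _

/-- shift -/
def tE : TT := ⟨fun _ => 1, 1⟩
/-- constant two -/
def hE : TT := ⟨fun _ => Units.mk0 2 (by norm_num), 0⟩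
/-- constant four -/
def kE : TT := ⟨fun _ => Units.mk0 4 (by norm_num), 0⟩
/-- powers of two -/
def pE : TT := ⟨fun n => (Units.mk0 2 (by norm_num)) ^ n, 0⟩
/-- powers of four -/
def qE : TT := ⟨fun n => (Units.mk0 4 (by norm_num)) ^ n, 0⟩
/-- the identity sequence -/
def xE : TT := ⟨fun n => if h : 1 ≤ n then Units.mk0 (n : ℚ) (by
    have : (0 : ℚ) < n := by exact_mod_cast (by omega : 0 < n)
    exact this.ne') else 1, 0⟩

lemma comm_pt : ⁅pE, tE⁆ = hE := by
  rw [commutatorElement_def]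
  refine TT.ext' ?_ ?_
  · intro n
    simp only [TT.mul_β, TT.inv_β, TT.mul_d, TT.inv_d, pE, tE, hE, one_mul, mul_one, inv_one]
    rw [← zpow_neg, ← zpow_add]
    have : n + -(n - (0 + 1) + 0) = 1 := by ring
    rw [this, zpow_one]
  · simp [pE, tE, hE]

lemma comm_qt : ⁅qE, tE⁆ = kE := by
  rw [commutatorElement_def]
  refine TT.ext' ?_ ?_
  · intro n
    simp only [TT.mul_β, TT.inv_β, TT.mul_d, TT.inv_d, qE, tE, kE, one_mul, mul_one, inv_one]
    rw [← zpow_neg, ← zpow_add]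
    have : n + -(n - (0 + 1) + 0) = 1 := by ring
    rw [this, zpow_one]
  · simp [qE, tE, kE]

/-- the base vector -/
noncomputable def dl : SS := Finsupp.single 1 1

/-- the basic difference -/
noncomputable def bb : SS := dl - tE • dl

/-- the basic label -/
noncomputable def c0 : SS := bb - hE • bb

lemma neg_SS (a : SS) : -a = a := by ext z; simp

lemma bb_eq : bb = Finsupp.single 1 1 + Finsupp.single tE 1 := by
  unfold bb dl
  rw [sub_eq_add_neg, neg_SS, smul_sg, mul_one]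

lemma gbb_eq (g : TT) : bb - g • bb = Finsupp.single 1 1 + Finsupp.single tE 1 +
    (Finsupp.single g 1 + Finsupp.single (g * tE) 1) := by
  rw [bb_eq, smul_add, smul_sg, smul_sg, mul_one, sub_eq_add_neg, neg_SS]

lemma ne_of_d {a b : TT} (h : a.d ≠ b.d) : a ≠ b := fun e => h (by rw [e])
lemma ne_of_β {a b : TT} (h : (a.β 0 : ℚ) ≠ b.β 0) : a ≠ b := fun e => h (by rw [e])

@[simp] lemma d_tE : tE.d = 1 := rfl
@[simp] lemma d_hE : hE.d = 0 := rfl
@[simp] lemma d_kE : kE.d = 0 := rfl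
@[simp] lemma d_pE : pE.d = 0 := rfl
@[simp] lemma d_qE : qE.d = 0 := rfl
@[simp] lemma d_xE : xE.d = 0 := rfl
@[simp] lemma β_tE (n : ℤ) : tE.β n = 1 := rfl
lemma β_hE (n : ℤ) : (hE.β n : ℚ) = 2 := rfl
lemma β_kE (n : ℤ) : (kE.β n : ℚ) = 4 := rfl

lemma c0_supp (x : TT) (hx : c0 x ≠ 0) : (x.d = 0 ∨ x.d = 1) ∧ 1 ≤ (x.β 0 : ℚ) ∧
    (x.d = 0 → (x.β 0 : ℚ) = 1 → x = 1) := by
  classical
  have hd : x = 1 ∨ x = tE ∨ x = hE ∨ x = hE * tE := by
    by_contra hcon
    push Not at hcon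
    obtain ⟨n1, n2, n3, n4⟩ := hcon
    apply hx
    unfold c0
    rw [gbb_eq]
    simp [Finsupp.add_apply, Finsupp.single_apply, n1.symm, n2.symm, n3.symm, n4.symm]
  rcases hd with rfl | rfl | rfl | rfl
  · simp
  · simp
  · refine ⟨by simp, ?_, ?_⟩
    · rw [β_hE]; norm_num
    · intro _ h; rw [β_hE] at h; norm_num at h
  · refine ⟨by simp, ?_, ?_⟩
    · rw [TT.mul_β, β_tE, mul_one, β_hE]; norm_num
    · intro h; simp at h

lemma c0_one : c0 1 = 1 := by
  classical
  unfold c0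
  rw [gbb_eq]
  have n1 : tE ≠ 1 := ne_of_d (by simp)
  have n2 : hE ≠ 1 := ne_of_β (by rw [β_hE]; simp)
  have n3 : hE * tE ≠ 1 := ne_of_d (by simp)
  simp [Finsupp.add_apply, Finsupp.single_apply, n1, n2, n3]

lemma stab (u : TT) (h : u • c0 = c0) : u = 1 := by
  have h1 : c0 u ≠ 0 := by
    rw [← h, smul_ap, inv_mul_cancel, c0_one]; decide
  have h2 : c0 u⁻¹ ≠ 0 := by
    have : (u • c0) 1 = c0 1 := by rw [h]
    rw [smul_ap, mul_one, c0_one] at this
    rw [this]; decide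
  obtain ⟨a1, a2, a3⟩ := c0_supp _ h1
  obtain ⟨b1, b2, _⟩ := c0_supp _ h2
  rw [TT.inv_d] at b1
  have hd : u.d = 0 := by omega
  rw [TT.inv_β, hd] at b2
  simp only [add_zero, Units.val_inv_eq_inv_val] at b2
  apply a3 hd
  have hpos : (0 : ℚ) < u.β 0 := by linarith
  have : (u.β 0 : ℚ) ≤ 1 := by
    by_contra hcon
    push Not at hcon
    have := inv_lt_one_of_one_lt₀ hcon
    linarith
  linarith

lemma stab' (a b : TT) (h : a • c0 = b • c0) : a = b := by
  have h1 : (b⁻¹ * a) • c0 = c0 := by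
    rw [mul_smul, h, inv_smul_smul]
  have := stab _ h1
  rwa [inv_mul_eq_one, eq_comm] at this

/-- the set of labels -/
def YY : Set SS := {s | ∃ τ : TT, TT.YT τ ∧ s = τ • c0}

lemma zero_YY : (0 : SS) ∉ YY := by
  rintro ⟨τ, _, h⟩
  have : (τ • c0) τ = 0 := by rw [← h]; rfl
  rw [smul_ap, inv_mul_cancel, c0_one] at this
  exact absurd this (by decide)

lemma pin_YY : Dat.Pin YY := by
  intro w x y c h0 h1 h3 q2 q5 n2 n1 m hm
  obtain ⟨t, ht, e0⟩ := h0
  have key : ∀ g : TT, (w * g) • c = ((w * g * w⁻¹) * t) • c0 := by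
    intro g
    rw [mul_smul, mul_smul (w * g * w⁻¹), ← e0, ← mul_smul, ← mul_smul]
    congr 1
    group
  have P : ∀ g : TT, (w * g) • c ∈ YY → TT.YT ((w * g * w⁻¹) * t) := by
    intro g hg
    obtain ⟨τ, hτ, e⟩ := hg
    rw [key] at e
    rw [stab' _ _ e]; exact hτ
  have N : ∀ g : TT, (w * g) • c ∉ YY → ¬ TT.YT ((w * g * w⁻¹) * t) := by
    intro g hg h
    exact hg ⟨_, h, key g⟩
  have cp : ∀ (g : TT) (k : ℕ), w * g ^ k * w⁻¹ = (w * g * w⁻¹) ^ k := fun g k => conj_pow.symm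
  have p1 := P _ h1
  have p3 := P _ h3
  have p2' := P _ q2
  have p5' := P _ q5
  have m2 := N _ n2
  have m1 := N _ n1
  rw [cp] at p3 p2' p5' m2
  obtain ⟨dx, dy, bx⟩ := TT.pin t (w * x * w⁻¹) (w * y * w⁻¹) ht p1 p3 p2' p5' m2 m1
  have he := TT.eigen (w * x * w⁻¹) (w * y * w⁻¹) dx dy bx m hm
  have e1 : ((w * y * w⁻¹) ^ m)⁻¹ * (w * x * w⁻¹) * (w * y * w⁻¹) ^ m =
      w * ((y ^ m)⁻¹ * x * y ^ m) * w⁻¹ := by
    rw [← cp]; group
  rw [e1, TT.lin_mul, TT.lin_mul] at he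
  rw [← map_smul, ← he, TT.lin_inv]

end Pool.Agent.Helper705.Rad
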