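import Mathlib
import Pool.Agent.Helper705.Rad.RPin
import Pool.Agent.Helper705.SRF.Inst

set_option autoImplicit false

open scoped commutatorElement

namespace Pool.Agent.Helper705.Rad

open Pool.Agent.Helper705.SRF Pool.Agent.Helper705.Hopf

section wr

variable {Ω Q : Type} [Group Q] (θ : Q →* Equiv.Perm Ω)

lemma comm_inl2 (v h : Q) (w : HB Ω) :
    ⁅(SemidirectProduct.inl w * SemidirectProduct.inr v : Wr θ),
      (SemidirectProduct.inr h : Wr θ)⁆ =
      (SemidirectProduct.inl (w * (actFun (θ (⁅v, h⁆ * h)) w)⁻¹) *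
        SemidirectProduct.inr ⁅v, h⁆ : Wr θ) := by
  have hv : ⁅v, h⁆ * h * v = v * h := by rw [commutatorElement_def]; group
  generalize ⁅v, h⁆ = z at hv ⊢
  rw [commutatorElement_def, mul_inv_eq_iff_eq_mul, mul_inv_eq_iff_eq_mul]
  apply SemidirectProduct.ext
  · simp [mul_assoc, -map_mul, actFun_unit]
    rw [map_mul, actFun_comp, inv_mul_cancel]
  · simp [hv]

lemma dc_sq (a t p q : Q) (u : HB Ω) (hz : (dcW a t p q) ^ 2 = 1) :
    (dcW (SemidirectProduct.inr a : Wr θ) (SemidirectProduct.inl u * SemidirectProduct.inr t)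
      (SemidirectProduct.inr p) (SemidirectProduct.inr q)) ^ 2 =
    SemidirectProduct.inl
      (((actFun (θ a) u * (actFun (θ ⁅a, t⁆) u)⁻¹) *
        (actFun (θ (dcW a t p q * ⁅p, q⁆)) (actFun (θ a) u * (actFun (θ ⁅a, t⁆) u)⁻¹))⁻¹) *
      actFun (θ (dcW a t p q))
      ((actFun (θ a) u * (actFun (θ ⁅a, t⁆) u)⁻¹) *
        (actFun (θ (dcW a t p q * ⁅p, q⁆)) (actFun (θ a) u * (actFun (θ ⁅a, t⁆) u)⁻¹))⁻¹)) := by
  have e : (dcW (SemidirectProduct.inr a : Wr θ)
      (SemidirectProduct.inl u * SemidirectProduct.inr t)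
      (SemidirectProduct.inr p) (SemidirectProduct.inr q)) =
      (SemidirectProduct.inl ((actFun (θ a) u * (actFun (θ ⁅a, t⁆) u)⁻¹) *
        (actFun (θ (dcW a t p q * ⁅p, q⁆)) (actFun (θ a) u * (actFun (θ ⁅a, t⁆) u)⁻¹))⁻¹) *
        SemidirectProduct.inr (dcW a t p q) : Wr θ) := by
    unfold dcW
    rw [comm_inl, ← map_commutatorElement (SemidirectProduct.inr : Q →* Wr θ) p q, comm_inl2]
  rw [e, sq_inl θ _ hz]

end wr

/-- element supported at the origin, first coordinate -/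
noncomputable def va1 : HB SS := ⟨(Finsupp.single 0 1, 0), 0⟩
/-- element supported at the origin, second coordinate -/
noncomputable def va2 : HB SS := ⟨(0, Finsupp.single 0 1), 0⟩

/-- translation by the base vector -/
noncomputable def aD : Af TT SS := ⟨1, dl⟩
/-- linear elements -/
def aT (g : TT) : Af TT SS := ⟨g, 0⟩

lemma comm_aT (g h : TT) : ⁅aT g, aT h⁆ = aT ⁅g, h⁆ := by
  let j : TT →* Af TT SS :=
    { toFun := aT
      map_one' := rfl
      map_mul' := by
        intro x y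
        apply Af.ext
        · rfl
        · simp [aT] }
  exact (map_commutatorElement j g h).symm

lemma comm_aD : ⁅aD, aT tE⁆ = ⟨1, bb⟩ := by
  unfold aD
  rw [Af.comm_trans]
  rfl

lemma dc_aD (p g : TT) (hg : ⁅p, tE⁆ = g) : dcW aD (aT tE) (aT p) (aT tE) = ⟨1, bb - g • bb⟩ := by
  unfold dcW
  rw [comm_aD, comm_aT, hg, Af.comm_trans]
  rfl

/-- the four points -/
noncomputable def PP (g : TT) : SS →₀ ZMod 2 :=
  Finsupp.single dl 1 + Finsupp.single (g • dl + (bb - g • bb)) 1 +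
    (Finsupp.single (dl + (bb - g • bb)) 1 + Finsupp.single (g • dl) 1)

lemma four_pts (g : TT) (z : SS) (hz : z = bb - g • bb) :
    (Finsupp.single dl 1 + Finsupp.single bb 1 + (Finsupp.single (g • dl + z) 1 +
      Finsupp.single (g • bb + z) 1) + (Finsupp.single (dl + z) 1 + Finsupp.single (bb + z) 1 +
      (Finsupp.single (g • dl + z + z) 1 + Finsupp.single (g • bb + z + z) 1)) :
      SS →₀ ZMod 2) = PP g := by
  have e1 : g • bb + z = bb := by rw [hz]; abel
  have e2 : g • dl + z + z = g • dl := by rw [add_assoc, two_SS, add_zero]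
  rw [e2, e1]
  unfold PP
  rw [← hz]
  have c1 := cancel2 (Finsupp.single bb 1 : Lb SS)
  have c2 := cancel2 (Finsupp.single (bb + z) 1 : Lb SS)
  generalize (Finsupp.single bb 1 : Lb SS) = B at c1 ⊢
  generalize (Finsupp.single (bb + z) 1 : Lb SS) = F at c2 ⊢
  generalize (Finsupp.single dl 1 : Lb SS) = A
  generalize (Finsupp.single (g • dl + z) 1 : Lb SS) = C
  generalize (Finsupp.single (dl + z) 1 : Lb SS) = E
  generalize (Finsupp.single (g • dl) 1 : Lb SS) = G
  have e3 : A + B + (C + B) + (E + F + (G + F)) = A + C + (E + G) + (B + B) + (F + F) := by abel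
  rw [e3, c1, c2, add_zero, add_zero]

/-- the double commutator squared, module part -/
lemma dc_val (p g : TT) (hg : ⁅p, tE⁆ = g) (u : HB SS) :
    ∃ w : HB SS, (dcW (SemidirectProduct.inr aD : WA TT SS)
      (SemidirectProduct.inl u * SemidirectProduct.inr (aT tE))
      (SemidirectProduct.inr (aT p)) (SemidirectProduct.inr (aT tE))) ^ 2 =
        SemidirectProduct.inl w ∧
      (u = va1 → w.fst = (PP g, 0)) ∧ (u = va2 → w.fst = (0, PP g)) := by
  have hz : (dcW aD (aT tE) (aT p) (aT tE)) ^ 2 = 1 := af_dcW_sq two_SS _ _ _ _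
  refine ⟨_, dc_sq (Af.toPerm (T := TT) (S := SS)) aD (aT tE) (aT p) (aT tE) u hz, ?_, ?_⟩
  · rintro rfl
    rw [dc_aD p g hg, comm_aD, comm_aT, hg]
    have e := four_pts g (bb - g • bb) rfl
    apply Prod.ext
    · refine Eq.trans ?_ e
      simp [va1, Finsupp.mapDomain_add, Finsupp.mapDomain_single, fneg, aD, aT]
      abel
    · simp [va1]
  · rintro rfl
    rw [dc_aD p g hg, comm_aD, comm_aT, hg]
    have e := four_pts g (bb - g • bb) rfl
    apply Prod.ext
    · simp [va2]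
    · refine Eq.trans ?_ e
      simp [va2, Finsupp.mapDomain_add, Finsupp.mapDomain_single, fneg, aD, aT]
      abel

/-- the test tuple -/
noncomputable def yL : ℕ → WA TT SS := fun i =>
  if i = 0 ∨ i = 4 ∨ i = 8 then SemidirectProduct.inr aD
  else if i = 1 ∨ i = 3 ∨ i = 7 ∨ i = 11 ∨ i = 13 then SemidirectProduct.inr (aT tE)
  else if i = 5 then SemidirectProduct.inl va1 * SemidirectProduct.inr (aT tE)
  else if i = 9 then SemidirectProduct.inl va2 * SemidirectProduct.inr (aT tE)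
  else if i = 2 ∨ i = 6 ∨ i = 16 then SemidirectProduct.inr (aT pE)
  else if i = 10 then SemidirectProduct.inr (aT qE)
  else if i = 12 then SemidirectProduct.inr (aT xE)
  else 1

lemma rW_yL : (rW yL).left.snd = PP hE * PP kE := by
  obtain ⟨w1, e1, f1, _⟩ := dc_val pE hE comm_pt va1
  obtain ⟨w2, e2, _, f2⟩ := dc_val qE kE comm_qt va2
  have h1 : dcW (yL 4) (yL 5) (yL 6) (yL 7) ^ 2 = SemidirectProduct.inl w1 := by
    simpa [yL] using e1
  have h2 : dcW (yL 8) (yL 9) (yL 10) (yL 11) ^ 2 = SemidirectProduct.inl w2 := by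
    simpa [yL] using e2
  unfold rW
  rw [h1, h2, ← map_commutatorElement, SemidirectProduct.left_inl, Ext.comm_eq]
  change gam SS w1.fst w2.fst - gam SS w2.fst w1.fst = _
  rw [gam_apply, gam_apply, f1 rfl, f2 rfl]
  simp

lemma ne_ap (f g : SS) (x : TT) (h : f x ≠ g x) : f ≠ g := fun e => h (by rw [e])

lemma aug_yL : aug (rW yL).left.snd = 1 := by
  classical
  rw [rW_yL]
  have hh : ∀ a b : TT, (a.d ≠ b.d ∨ (a.β 0 : ℚ) ≠ b.β 0) → a ≠ b := by
    rintro a b (h | h)
    · exact ne_of_d h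
    · exact ne_of_β h
  have n1 : (1 : TT) ≠ hE := hh _ _ (Or.inr (by rw [β_hE]; simp))
  have n2 : (1 : TT) ≠ kE := hh _ _ (Or.inr (by rw [β_kE]; simp))
  have n3 : (1 : TT) ≠ tE := hh _ _ (Or.inl (by simp))
  have n4 : (1 : TT) ≠ hE * tE := hh _ _ (Or.inl (by simp))
  have n5 : (1 : TT) ≠ kE * tE := hh _ _ (Or.inl (by simp))
  have n6 : hE ≠ kE := hh _ _ (Or.inr (by rw [β_kE, β_hE]; norm_num))
  have n7 : hE ≠ tE := hh _ _ (Or.inl (by simp))
  have n8 : hE ≠ hE * tE := hh _ _ (Or.inl (by simp))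
  have n9 : hE ≠ kE * tE := hh _ _ (Or.inl (by simp))
  have n10 : kE ≠ tE := hh _ _ (Or.inl (by simp))
  have n11 : kE ≠ hE * tE := hh _ _ (Or.inl (by simp))
  have n12 : kE ≠ kE * tE := hh _ _ (Or.inl (by simp))
  have n13 : tE ≠ hE * tE := hh _ _ (Or.inr (by
    rw [TT.mul_β, β_tE, β_tE, mul_one, β_hE]; simp))
  have n14 : tE ≠ kE * tE := hh _ _ (Or.inr (by
    rw [TT.mul_β, β_tE, β_tE, mul_one, β_kE]; simp))
  have n15 : hE * tE ≠ kE * tE := hh _ _ (Or.inr (by
    rw [TT.mul_β, TT.mul_β, β_tE, β_tE, mul_one, mul_one, β_kE, β_hE]; norm_num))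
  have q1 : (dl : SS) = Finsupp.single 1 1 := rfl
  have q2 : ∀ g : TT, g • dl = Finsupp.single g 1 := by
    intro g; rw [q1, smul_sg, mul_one]
  -- the points
  have a1 : (hE • dl + (bb - hE • bb) : SS) ≠ dl := by
    apply ne_ap _ _ (hE * tE)
    rw [q2, q1, gbb_eq]
    simp [Finsupp.single_apply, n4, n8, n13]
  have a2 : (hE • dl + (bb - hE • bb) : SS) ≠ kE • dl + (bb - kE • bb) := by
    apply ne_ap _ _ (hE * tE)
    rw [q2, q2, gbb_eq, gbb_eq]
    simp [Finsupp.single_apply, n4, n8, n13, n11, n15.symm]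
  have a3 : (hE • dl + (bb - hE • bb) : SS) ≠ dl + (bb - kE • bb) := by
    apply ne_ap _ _ (hE * tE)
    rw [q2, q1, gbb_eq, gbb_eq]
    simp [Finsupp.single_apply, n4, n8, n13, n11, n15.symm]
  have a4 : (hE • dl + (bb - hE • bb) : SS) ≠ kE • dl := by
    apply ne_ap _ _ (hE * tE)
    rw [q2, q2, gbb_eq]
    simp [Finsupp.single_apply, n4, n8, n13, n11, n15.symm]
  have b1 : (dl + (bb - hE • bb) : SS) ≠ dl := by
    apply ne_ap _ _ hE
    rw [q1, gbb_eq]
    simp [Finsupp.single_apply, n1, n7.symm, n8.symm]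
  have b2 : (dl + (bb - hE • bb) : SS) ≠ kE • dl + (bb - kE • bb) := by
    apply ne_ap _ _ hE
    rw [q2, q1, gbb_eq, gbb_eq]
    simp [Finsupp.single_apply, n1, n7.symm, n8.symm, n6.symm, n9.symm]
  have b3 : (dl + (bb - hE • bb) : SS) ≠ dl + (bb - kE • bb) := by
    apply ne_ap _ _ hE
    rw [q1, gbb_eq, gbb_eq]
    simp [Finsupp.single_apply, n1, n7.symm, n8.symm, n6.symm, n9.symm]
  have b4 : (dl + (bb - hE • bb) : SS) ≠ kE • dl := by
    apply ne_ap _ _ hE
    rw [q2, q1, gbb_eq]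
    simp [Finsupp.single_apply, n1, n7.symm, n8.symm, n6.symm, n9.symm]
  have c1 : (hE • dl : SS) ≠ dl := by
    apply ne_ap _ _ hE
    rw [q2, q1]
    simp [Finsupp.single_apply, n1, n7.symm, n8.symm]
  have c2 : (hE • dl : SS) ≠ kE • dl + (bb - kE • bb) := by
    apply ne_ap _ _ hE
    rw [q2, q2, gbb_eq]
    simp [Finsupp.single_apply, n1, n7.symm, n8.symm, n6.symm, n9.symm]
  have c3 : (hE • dl : SS) ≠ dl + (bb - kE • bb) := by
    apply ne_ap _ _ hE
    rw [q2, q1, gbb_eq]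
    simp [Finsupp.single_apply, n1, n7.symm, n8.symm, n6.symm, n9.symm]
  have c4 : (hE • dl : SS) ≠ kE • dl := by
    apply ne_ap _ _ hE
    rw [q2, q2]
    simp [Finsupp.single_apply, n6.symm]
  have d2 : (dl : SS) ≠ kE • dl + (bb - kE • bb) := by
    apply ne_ap _ _ tE
    rw [q2, q1, gbb_eq]
    simp [Finsupp.single_apply, n3, n10, n14.symm]
  have d3 : (dl : SS) ≠ dl + (bb - kE • bb) := by
    apply ne_ap _ _ kE
    rw [q1, gbb_eq]
    simp [Finsupp.single_apply, n2, n10.symm, n12.symm]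
  have d4 : (dl : SS) ≠ kE • dl := by
    apply ne_ap _ _ kE
    rw [q2, q1]
    simp [Finsupp.single_apply, n2]
  unfold PP
  simp only [add_mul, map_add, aug_single_mul, Finsupp.add_apply]
  rw [Finsupp.single_eq_of_ne a1, Finsupp.single_eq_of_ne a2,
    Finsupp.single_eq_of_ne a3, Finsupp.single_eq_of_ne a4,
    Finsupp.single_eq_of_ne b1, Finsupp.single_eq_of_ne b2,
    Finsupp.single_eq_of_ne b3, Finsupp.single_eq_of_ne b4,
    Finsupp.single_eq_of_ne c1, Finsupp.single_eq_of_ne c2,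
    Finsupp.single_eq_of_ne c3, Finsupp.single_eq_of_ne c4,
    Finsupp.single_eq_of_ne d2, Finsupp.single_eq_of_ne d3,
    Finsupp.single_eq_of_ne d4, Finsupp.single_eq_same]
  decide

end Pool.Agent.Helper705.Rad
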