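import Mathlib
import Pool.Agent.Helper705.Rad.RWit

set_option autoImplicit false

open scoped commutatorElement

namespace Pool.Agent.Helper705.Rad

open Pool.Agent.Helper705.SRF Pool.Agent.Helper705.Hopf

/-- the data -/
noncomputable def DL : Dat SS where
  Θ := Classical.choose (exists_theta TT SS two_SS)
  T1 := (Classical.choose_spec (exists_theta TT SS two_SS)).1
  T2 := (Classical.choose_spec (exists_theta TT SS two_SS)).2
  Y := YY

lemma DL_Y : DL.Y = YY := rfl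

/-- lifts -/
noncomputable def fL : ℕ → FA TT SS := fun i =>
  if i = 14 ∨ i = 15 then 1 else FreeGroup.of (yL i)

lemma fL_of (i : ℕ) (h : ¬ (i = 14 ∨ i = 15)) : fL i = FreeGroup.of (yL i) := by
  unfold fL; rw [if_neg h]

lemma ev_fL (i : ℕ) (h : ¬ (i = 14 ∨ i = 15)) : ev (Af.toPerm (T := TT) (S := SS)) (fL i) = yL i := by
  rw [fL_of i h]; exact ev_of _ _

lemma aff_fL (i : ℕ) (h : ¬ (i = 14 ∨ i = 15)) : aff TT SS (fL i) = (yL i).right := by
  unfold aff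
  rw [MonoidHom.comp_apply, ev_fL i h]; rfl

lemma tau_fL (i : ℕ) (h : ¬ (i = 14 ∨ i = 15)) : tau TT SS (fL i) = (yL i).right.t := by
  unfold tau
  rw [MonoidHom.comp_apply, aff_fL i h]; rfl

lemma tau12 : tau TT SS (fL 12) = xE := by
  rw [tau_fL 12 (by decide)]; simp [yL, aT]

lemma tau13 : tau TT SS (fL 13) = tE := by
  rw [tau_fL 13 (by decide)]; simp [yL, aT]

lemma tau16 : tau TT SS (fL 16) = pE := by
  rw [tau_fL 16 (by decide)]; simp [yL, aT]

lemma cvec_fL : cvec fL = c0 := by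
  unfold cvec cW
  change (dcW (aff TT SS (fL 0)) (aff TT SS (fL 1)) (aff TT SS (fL 2)) (aff TT SS (fL 3))).b = c0
  rw [aff_fL 0 (by decide), aff_fL 1 (by decide), aff_fL 2 (by decide), aff_fL 3 (by decide)]
  have e0 : (yL 0).right = aD := by simp [yL]
  have e1 : (yL 1).right = aT tE := by simp [yL]
  have e2 : (yL 2).right = aT pE := by simp [yL]
  have e3 : (yL 3).right = aT tE := by simp [yL]
  rw [e0, e1, e2, e3, dc_aD pE hE comm_pt]
  rfl

lemma par_fL : par two_SS fL = 1 := by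
  unfold par
  have : labA TT SS ⟨rW fL, rW_mem two_SS fL⟩ = (rW yL).left.snd := by
    unfold labA
    rw [lab_apply]
    have e : ev (Af.toPerm (T := TT) (S := SS)) (rW fL) = rW yL := by
      rw [map_rW]
      unfold rW
      simp only [ev_fL 4 (by decide), ev_fL 5 (by decide), ev_fL 6 (by decide),
        ev_fL 7 (by decide), ev_fL 8 (by decide), ev_fL 9 (by decide), ev_fL 10 (by decide),
        ev_fL 11 (by decide)]
    simp only [e]
  rw [this, aug_yL]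

lemma mem_YY (g : TT) : g • c0 ∈ YY ↔ TT.YT g := by
  constructor
  · rintro ⟨τ, hτ, e⟩
    rw [stab' _ _ e]; exact hτ
  · intro h
    exact ⟨g, h, rfl⟩

open Classical in
lemma sg_fL (g : FA TT SS) (w : DL.G1) :
    DL.sg (bW fL g) (bW_mem two_SS fL g) w = if TT.YT (DL.t1 w * tau TT SS g) then -1 else 1 := by
  rw [sg_bW two_SS DL zero_YY, cvec_fL, par_fL, DL_Y]
  by_cases h : TT.YT (DL.t1 w * tau TT SS g)
  · rw [if_pos ((mem_YY _).mpr h), if_pos h, sgq_one]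
  · rw [if_neg (fun h' => h ((mem_YY _).mp h')), if_neg h, sgq_zero]

lemma YT_one : TT.YT 1 := Or.inr (Or.inr ⟨rfl, 0, Or.inl rfl, by intro n _; simp⟩)

lemma β_xE (n : ℕ) (hn : 1 ≤ n) : (xE.β n : ℚ) = n := by
  have h : (1 : ℤ) ≤ (n : ℤ) := by exact_mod_cast hn
  unfold xE
  simp only [dif_pos h, Units.val_mk0]
  simp

lemma β_xE_pow (n k : ℕ) (hn : 1 ≤ n) : ((xE ^ k).β n : ℚ) = (n : ℚ) ^ k := by
  induction k with
  | zero => simp
  | succ k ih =>
    rw [pow_succ', TT.mul_β, d_xE, sub_zero, Units.val_mul, ih, β_xE n hn, pow_succ']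

lemma YT_x : TT.YT xE := Or.inr (Or.inr ⟨rfl, 1, Or.inr (Or.inl rfl), by
  intro n hn; rw [β_xE n hn, pow_one]⟩)

lemma YT_x3 : TT.YT (xE ^ 3) := Or.inr (Or.inr ⟨by rw [TT.pow_d, d_xE, mul_zero], 3,
  Or.inr (Or.inr rfl), by
  intro n hn; rw [β_xE_pow n 3 hn]⟩)

lemma YT_x2 : ¬ TT.YT (xE ^ 2) := by
  rintro (h | h | ⟨_, e, he, h⟩)
  · rw [TT.pow_d, d_xE] at h; norm_num at h
  · rw [TT.pow_d, d_xE] at h; norm_num at h
  · have := h 2 (by norm_num)
    rw [β_xE_pow 2 2 (by norm_num)] at this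
    rcases he with rfl | rfl | rfl <;> norm_num at this

lemma YT_t2 : TT.YT (tE ^ 2) := Or.inl (by rw [TT.pow_d, d_tE]; norm_num)

lemma YT_t5 : TT.YT (tE ^ 5) := Or.inr (Or.inl (by rw [TT.pow_d, d_tE]; norm_num))

lemma YT_t : ¬ TT.YT tE := by
  rintro (h | h | ⟨h, _⟩)
  · rw [d_tE] at h; norm_num at h
  · rw [d_tE] at h; norm_num at h
  · rw [d_tE] at h; norm_num at h

lemma eps_one : DL.eps two_SS fL (lits fL) 1 = -128 := by
  classical
  unfold lits
  simp only [Dat.eps]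
  simp only [sg_fL, map_one, one_mul, map_pow, tau12, tau13]
  rw [if_pos YT_one, if_pos YT_x, if_pos YT_x3, if_pos YT_t2, if_pos YT_t5, if_neg YT_x2,
    if_neg YT_t]
  norm_num

lemma eps_zero (w : DL.G1) (h : ¬ TT.YT (DL.t1 w)) : DL.eps two_SS fL (lits fL) w = 0 := by
  classical
  unfold lits
  simp only [Dat.eps]
  rw [sg_fL, map_one, mul_one, if_neg h]
  ring

/-- raw test function -/
noncomputable def rawψ (w : DL.G1) : ℚ := by
  classical
  exact if h : ∃ d : FA TT SS, ∃ _ : d ∈ DA TT SS, DL.cl d = w then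
    sgq (laY DL.Y (DL.th (Classical.choose h) (Classical.choose (Classical.choose_spec h)))) else 0

lemma th_eq (d d' : FA TT SS) (hd : d ∈ DA TT SS) (hd' : d' ∈ DA TT SS)
    (h : DL.cl d = DL.cl d') : DL.th d hd = DL.th d' hd' := by
  have h1 : d⁻¹ * d' ∈ DL.W := QuotientGroup.eq.mp h
  rw [Dat.mem_W] at h1
  obtain ⟨h2, h3⟩ := h1
  have h4 : DL.th (d⁻¹ * d') h2 = DL.th d⁻¹ (inv_mem hd) + DL.th d' hd' := DL.th_mul _ _ _ _
  rw [h3, DL.th_inv d hd] at h4
  have h5 : DL.th d' hd' = - DL.th d hd := eq_neg_of_add_eq_zero_right h4.symm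
  rw [h5, negL]

lemma rawψ_cl (d : FA TT SS) (hd : d ∈ DA TT SS) :
    rawψ (DL.cl d) = sgq (laY DL.Y (DL.th d hd)) := by
  have h : ∃ d' : FA TT SS, ∃ _ : d' ∈ DA TT SS, DL.cl d' = DL.cl d := ⟨d, hd, rfl⟩
  unfold rawψ
  rw [dif_pos h]
  congr 2
  exact th_eq _ _ _ _ (Classical.choose_spec (Classical.choose_spec h))

lemma rawψ_zero (w : DL.G1) (h : ¬ ∃ d : FA TT SS, ∃ _ : d ∈ DA TT SS, DL.cl d = w) :
    rawψ w = 0 := by
  unfold rawψ
  rw [dif_neg h]

/-- the test function -/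
noncomputable def psi2 : DL.Cm := ⟨rawψ, by
  intro d hd w
  by_cases h : ∃ d : FA TT SS, ∃ _ : d ∈ DA TT SS, DL.cl d = w
  · obtain ⟨e, he, rfl⟩ := h
    rw [← map_mul, rawψ_cl _ (mul_mem he hd), rawψ_cl _ he, DL.th_mul e d he hd, map_add, sgq_add]
    unfold Dat.sg
    rw [DL.t1_D e he, sc_one]; ring
  · rw [rawψ_zero w h, mul_zero]
    apply rawψ_zero
    rintro ⟨e, he, h'⟩
    apply h
    refine ⟨e * d⁻¹, mul_mem he (inv_mem hd), ?_⟩
    rw [map_mul, h', map_inv, mul_inv_cancel_right]⟩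

lemma psi2_one : psi2.1 1 = 1 := by
  have h := rawψ_cl 1 (one_mem (DA TT SS))
  change rawψ 1 = 1
  have e : DL.th 1 (one_mem (DA TT SS)) = 0 := by
    have : (⟨1, one_mem _⟩ : DA TT SS) = 1 := rfl
    unfold Dat.th
    rw [this, map_one]; rfl
  rw [map_one, e, map_zero] at h
  exact h

lemma psi2_zero (w : DL.G1) (h : DL.t1 w ≠ 1) : psi2.1 w = 0 := by
  apply rawψ_zero
  rintro ⟨e, he, rfl⟩
  exact h (DL.t1_D e he)

/-- first module element -/
noncomputable def z1 : DL.GG :=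
  SemidirectProduct.inl (⟨(Finsupp.single 1 1, 0), 0⟩ : DL.E3)
/-- second module element -/
noncomputable def z2 : DL.GG := SemidirectProduct.inl (⟨(0, psi2), 0⟩ : DL.E3)

/-- the test tuple in the final group -/
noncomputable def aL : ℕ → DL.GG := fun i =>
  if i = 14 then z1 else if i = 15 then z2 else SemidirectProduct.inr (DL.cl (fL i))

lemma aL_right (i : ℕ) : (aL i).right = DL.cl (fL i) := by
  unfold aL
  by_cases h14 : i = 14
  · rw [if_pos h14, h14]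
    have : fL 14 = 1 := by simp [fL]
    rw [this, map_one]; rfl
  · rw [if_neg h14]
    by_cases h15 : i = 15
    · rw [if_pos h15, h15]
      have : fL 15 = 1 := by simp [fL]
      rw [this, map_one]; rfl
    · rw [if_neg h15]; rfl

lemma comm_fst {S : Type} [AddCommGroup S] [DistribMulAction TT S] (D : Dat S) (x g : D.GG)
    (h : D.InE x) : D.InE ⁅x, g⁆ ∧
    (⁅x, g⁆).left.fst = x.left.fst - D.trM g.right x.left.fst := by
  obtain ⟨i1, i2⟩ := D.invE x h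
  have c1 := D.conj_right g x⁻¹ i1
  have c2 := D.conj_fst g x⁻¹ i1
  have e : ⁅x, g⁆ = x * (g * x⁻¹ * g⁻¹) := by rw [commutatorElement_def]; group
  obtain ⟨j1, j2⟩ := D.mulE x (g * x⁻¹ * g⁻¹) h c1
  rw [e]
  refine ⟨j1, ?_⟩
  rw [j2, Ext.mul_fst, c2, i2, Ext.inv_fst, map_neg, sub_eq_add_neg]

lemma mW_eq {G : Type} [Group G] (a : ℕ → G) (z : G) :
    mW a z = ⁅⁅⁅z, a 13⁆, ⁅a 16, a 13⁆⁆, bW a 1⁆ := rfl

lemma mW_fst (z : DL.GG) (hz : DL.InE z) : ∃ h : DL.G1,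
    DL.t1 h = hE ∧
    (mW aL z).left.fst =
      ((z.left.fst - DL.trM (DL.cl (fL 13)) z.left.fst) -
        DL.trM h (z.left.fst - DL.trM (DL.cl (fL 13)) z.left.fst)) -
      DL.trM (DL.cl (bW fL 1)) ((z.left.fst - DL.trM (DL.cl (fL 13)) z.left.fst) -
        DL.trM h (z.left.fst - DL.trM (DL.cl (fL 13)) z.left.fst)) := by
  have hbr : (bW aL 1).right = DL.cl (bW fL 1) := by
    have e1 := map_bW (SemidirectProduct.rightHom : DL.GG →* DL.G1) aL 1
    have e2 := map_bW (DL.cl) fL 1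
    have e3 : (fun i => (SemidirectProduct.rightHom : DL.GG →* DL.G1) (aL i)) =
        (fun i => DL.cl (fL i)) := by
      funext i; exact aL_right i
    rw [e3, map_one] at e1
    rw [map_one] at e2
    exact e1.trans e2.symm
  have hh : (⁅aL 16, aL 13⁆).right = DL.cl ⁅fL 16, fL 13⁆ := by
    have e1 := map_commutatorElement (SemidirectProduct.rightHom : DL.GG →* DL.G1) (aL 16) (aL 13)
    refine e1.trans ?_
    rw [map_commutatorElement]
    change ⁅(aL 16).right, (aL 13).right⁆ = _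
    rw [aL_right, aL_right]
  refine ⟨DL.cl ⁅fL 16, fL 13⁆, ?_, ?_⟩
  · rw [Dat.t1_cl, map_commutatorElement, tau16, tau13, comm_pt]
  · obtain ⟨i1, i2⟩ := comm_fst DL z (aL 13) hz
    obtain ⟨j1, j2⟩ := comm_fst DL ⁅z, aL 13⁆ ⁅aL 16, aL 13⁆ i1
    obtain ⟨k1, k2⟩ := comm_fst DL ⁅⁅z, aL 13⁆, ⁅aL 16, aL 13⁆⁆ (bW aL 1) j1
    rw [mW_eq, k2, j2, i2, hbr, hh, aL_right]

lemma t1_13 : DL.t1 (DL.cl (fL 13)) = tE := by rw [Dat.t1_cl, tau13]

lemma m2ψ : (mW aL z2).left.fst.2.1 1 = 2 ∧ (mW aL z2).left.fst.1 = 0 := by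
  classical
  obtain ⟨h, h1, h2⟩ := mW_fst z2 rfl
  rw [h2]
  have hz : z2.left.fst = (0, psi2) := rfl
  rw [hz]
  constructor
  · set χ : DL.Mm := ((0, psi2) : DL.Mm) - DL.trM (DL.cl (fL 13)) (0, psi2) with hχ
    set ξ : DL.Mm := χ - DL.trM h χ with hξ
    have e1 : (ξ - DL.trM (DL.cl (bW fL 1)) ξ).2.1 1 = ξ.2.1 1 - ξ.2.1 (1 * DL.cl (bW fL 1)) := rfl
    rw [e1, ξ.2.2 (bW fL 1) (bW_mem two_SS fL 1) 1, sg_fL]
    simp only [map_one, mul_one]
    rw [if_pos YT_one]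
    have e2 : ξ.2.1 1 = χ.2.1 1 - χ.2.1 (1 * h) := rfl
    have e3 : ∀ w, χ.2.1 w = psi2.1 w - psi2.1 (w * DL.cl (fL 13)) := fun w => rfl
    rw [e2, e3, e3, psi2_one, psi2_zero (1 * DL.cl (fL 13)), psi2_zero (1 * h),
      psi2_zero (1 * h * DL.cl (fL 13))]
    · norm_num
    · rw [map_mul, map_mul, map_one, one_mul, h1, t1_13]
      exact ne_of_d (by simp)
    · rw [map_mul, map_one, one_mul, h1]
      exact ne_of_β (by rw [β_hE]; simp)
    · rw [map_mul, map_one, one_mul, t1_13]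
      exact ne_of_d (by simp)
  · simp [Prod.fst_sub, Dat.trM_fst]

lemma kap_one : DL.kap 1 = TT.e0 := by
  unfold Dat.kap
  rw [map_one, inv_one, TT.lin_one]

theorem nonlaw : vW aL ≠ 1 := by
  classical
  rw [DL.vW_val two_SS aL fL aL_right]
  have h14 : aL 14 = z1 := by simp [aL]
  have h15 : aL 15 = z2 := by simp [aL]
  rw [h14, h15, m2ψ.2, Dat.pr_zero_left, sub_zero]
  obtain ⟨h, h1, h2⟩ := mW_fst z1 rfl
  have hz : z1.left.fst = (Finsupp.single 1 1, 0) := rfl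
  rw [hz] at h2
  set φ' : DL.G1 →₀ ℚ := (Finsupp.single 1 1 - Finsupp.single (1 * (DL.cl (fL 13))⁻¹) 1) -
    (Finsupp.single (1 * h⁻¹) 1 - Finsupp.single (1 * (DL.cl (fL 13))⁻¹ * h⁻¹) 1) with hφ
  have e1 : (mW aL z1).left.fst.1 = φ' - DL.trF (DL.cl (bW fL 1)) φ' := by
    rw [h2]
    simp only [Prod.fst_sub, Dat.trM_fst, map_sub, Dat.trF_single, hφ]
  set g : DL.G1 → ℚ := (mW aL z2).left.fst.2.1 with hg
  have hgD : DL.Dg g := (mW aL z2).left.fst.2.2
  have hfD : DL.Dg (fun w => DL.eps two_SS fL (lits fL) w * g w) :=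
    DL.Dg_mul _ g (fun w w' hw => DL.eps_t two_SS fL (lits fL) w w' hw) hgD
  rw [e1, Dat.pr_sub_left, DL.pr_trF_D (bW fL 1) (bW_mem two_SS fL 1) φ' _ hfD, hφ]
  simp only [Dat.pr_sub_left, Dat.pr_single]
  have z1' : DL.eps two_SS fL (lits fL) (1 * (DL.cl (fL 13))⁻¹) = 0 := by
    apply eps_zero
    rw [map_mul, map_one, one_mul, map_inv, t1_13]
    rintro (h | h | ⟨h, _⟩)
    · rw [TT.inv_d, d_tE] at h; norm_num at h
    · rw [TT.inv_d, d_tE] at h; norm_num at h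
    · rw [TT.inv_d, d_tE] at h; norm_num at h
  have z2' : DL.eps two_SS fL (lits fL) (1 * h⁻¹) = 0 := by
    apply eps_zero
    rw [map_mul, map_one, one_mul, map_inv, h1]
    rintro (h | h | ⟨h, e, he, h'⟩)
    · rw [TT.inv_d, d_hE] at h; norm_num at h
    · rw [TT.inv_d, d_hE] at h; norm_num at h
    · have := h' 1 (le_refl _)
      rw [TT.inv_β, Units.val_inv_eq_inv_val, β_hE] at this
      norm_num at this
  have z3' : DL.eps two_SS fL (lits fL) (1 * (DL.cl (fL 13))⁻¹ * h⁻¹) = 0 := by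
    apply eps_zero
    rw [map_mul, map_mul, map_one, one_mul, map_inv, map_inv, h1, t1_13]
    rintro (h | h | ⟨h, _⟩)
    · rw [TT.mul_d, TT.inv_d, TT.inv_d, d_tE, d_hE] at h; norm_num at h
    · rw [TT.mul_d, TT.inv_d, TT.inv_d, d_tE, d_hE] at h; norm_num at h
    · rw [TT.mul_d, TT.inv_d, TT.inv_d, d_tE, d_hE] at h; norm_num at h
  have g1 : g 1 = 2 := m2ψ.1
  rw [z1', z2', z3', eps_one, g1, sg_fL, kap_one]
  simp only [map_one, mul_one]
  rw [if_pos YT_one]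
  intro hcon
  have h3 := congrArg (fun x : DL.GG => x.left.snd 0) hcon
  simp [TT.e0] at h3
  norm_num at h3

end Pool.Agent.Helper705.Rad
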