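import Mathlib
import Pool.Agent.Helper705.Rad.RMod

set_option autoImplicit false

open scoped commutatorElement

namespace Pool.Agent.Helper705.Rad

open Pool.Agent.Helper705.SRF Pool.Agent.Helper705.Hopf

instance : Group.IsSolvable TT := by
  refine ⟨2, ?_⟩
  rw [derivedSeries_succ, derivedSeries_one, Subgroup.commutator_eq_bot_iff_le_centralizer]
  have h0 : ∀ x ∈ commutator TT, x.d = 0 := by
    intro x hx
    have : commutator TT ≤ (({ toFun := fun x => Multiplicative.ofAdd x.d
                               map_one' := rfl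
                               map_mul' := fun _ _ => rfl } : TT →* Multiplicative ℤ)).ker :=
      Abelianization.commutator_subset_ker _
    exact this hx
  intro x hx y hy
  exact TT.comm_zero _ _ (h0 _ hy) (h0 _ hx)

namespace Dat

variable {S : Type} [AddCommGroup S] [DistribMulAction TT S] (D : Dat S)

lemma der_le : ∃ n, derivedSeries (FA TT S) n ≤ D.W := by
  obtain ⟨n, hn⟩ := (inferInstance : Group.IsSolvable (WA TT S)).solvable
  refine ⟨n + 1, ?_⟩
  have hker : derivedSeries (FA TT S) n ≤ (ev (Af.toPerm (T := TT) (S := S))).ker := by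
    intro a ha
    have : ev _ a ∈ derivedSeries (WA TT S) n :=
      map_derivedSeries_le_derivedSeries (ev _) n ⟨a, ha, rfl⟩
    rw [hn] at this
    exact this
  rw [derivedSeries_succ, Subgroup.commutator_le]
  intro a ha b hb
  have ha' : ev _ a = 1 := hker ha
  have hb' : ev _ b = 1 := hker hb
  have haN : a ∈ NA TT S := by change ev _ a ∈ botM _; rw [ha']; exact one_mem _
  have hbN : b ∈ NA TT S := by change ev _ b ∈ botM _; rw [hb']; exact one_mem _
  rw [mem_W]
  refine ⟨Subgroup.commutator_mem_commutator haN hbN, ?_⟩
  rw [th_comm D a b haN hbN]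
  have : labA TT S ⟨a, haN⟩ = 0 := by
    unfold labA
    rw [lab_apply]
    simp only [ha']; rfl
  rw [this]; simp

instance : Group.IsSolvable D.G1 := by
  obtain ⟨n, hn⟩ := D.der_le
  refine ⟨n, ?_⟩
  rw [← map_derivedSeries_eq (QuotientGroup.mk'_surjective D.W) n, Subgroup.map_eq_bot_iff,
    QuotientGroup.ker_mk']
  exact hn

instance : Group.IsSolvable D.GG :=
  Group.isSolvable_of_ker_le_range (SemidirectProduct.inl (φ := D.act3))
    SemidirectProduct.rightHom (le_of_eq SemidirectProduct.range_inl_eq_ker_rightHom.symm)

end Dat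

end Pool.Agent.Helper705.Rad
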