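import Mathlib
import Pool.Agent.Helper705.Rad.RNon
import Pool.Agent.Helper705.Rad.RSol

set_option autoImplicit false

open scoped commutatorElement

namespace Pool.Agent.Helper705.Rad

section gen

variable {G : Type} [Group G]

/-- root of a conjugate -/
def rootG (s v : G) (m : ℕ) : G := (s⁻¹ * v * s) ^ m

/-- the root word -/
def rootW (a : ℕ → G) (m : ℕ) : G := rootG (sW a m) (vW a) m

/-- commuting -/
def commG (x y : G) : Prop := x * y = y * x

/-- nontrivial -/
def neOne (x : G) : Prop := x ≠ 1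

lemma map_rootW {H : Type} [Group H] (φ : G →* H) (x : ℕ → G) (m : ℕ) :
    φ (rootW x m) = rootW (fun i => φ (x i)) m := by
  have e1 := map_sW φ x m
  have e2 := map_vW φ x
  unfold rootW rootG
  rw [map_pow, map_mul, map_mul, map_inv, e1, e2]

end gen

section conv

variable {S : Type} [AddCommGroup S] [DistribMulAction TT S] (D : Dat S)

lemma conv1 (s v : D.GG) (m : ℕ) (h : (s⁻¹ * v * s) ^ m = v) : rootG s v m = v := h

lemma conv2 (x y : D.GG) (h : ⁅x, y⁆ = 1) : commG x y :=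
  commutatorElement_eq_one_iff_mul_comm.mp h

lemma conv3 (x : D.GG) (h : x ≠ 1) : neOne x := h

theorem gen_root (h2 : ∀ a : S, a + a = 0) (h0 : (0 : S) ∉ D.Y) (hP : Dat.Pin D.Y)
    (a : ℕ → D.GG) (m : ℕ) (hm : 1 ≤ m) : rootW a m = vW a :=
  conv1 D (sW a m) (vW a) m (D.law h2 h0 hP a m hm)

theorem gen_comm (h2 : ∀ a : S, a + a = 0) (a a' : ℕ → D.GG) : commG (vW a) (vW a') :=
  conv2 D (vW a) (vW a') (D.comm_law h2 a a')

end conv

theorem gen_ne : neOne (vW aL) := conv3 DL (vW aL) nonlaw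

/-- existence of the group -/
theorem exists_grp : ∃ (G : Type) (_ : Group G), (∀ (a : ℕ → G) (m : ℕ), 1 ≤ m →
      rootW a m = vW a) ∧ (∀ a a' : ℕ → G, commG (vW a) (vW a')) ∧
      (∃ a : ℕ → G, neOne (vW a)) ∧ ∃ d : ℕ, derivedSeries G d = ⊥ := by
  obtain ⟨d, hd⟩ := (inferInstance : Group.IsSolvable DL.GG).solvable
  exact ⟨DL.GG, inferInstance, gen_root DL two_SS zero_YY pin_YY, gen_comm DL two_SS,
    ⟨aL, gen_ne⟩, d, hd⟩

end Pool.Agent.Helper705.Rad
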