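import Mathlib

set_option autoImplicit false

namespace Pool.Agent.Helper705.Rad

/-- The verbal subgroup `W(G)`: the subgroup generated by all values in `G` of words of `W`. -/
def Verbal (W : Set (FreeGroup ℕ)) (G : Type) [Group G] : Subgroup G :=
  Subgroup.closure {y : G | ∃ w ∈ W, ∃ φ : FreeGroup ℕ →* G, φ w = y}

instance verbal_normal (W : Set (FreeGroup ℕ)) (G : Type) [Group G] : (Verbal W G).Normal := by
  constructor
  intro n hn g
  unfold Verbal at hn ⊢
  induction hn using Subgroup.closure_induction with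
  | mem x hx =>
    obtain ⟨w, hw, φ, rfl⟩ := hx
    apply Subgroup.subset_closure
    exact ⟨w, hw, (MulAut.conj g).toMonoidHom.comp φ, by simp⟩
  | one => simp
  | mul x y _ _ ihx ihy =>
    have e : g * (x * y) * g⁻¹ = (g * x * g⁻¹) * (g * y * g⁻¹) := by group
    rw [e]; exact mul_mem ihx ihy
  | inv x _ ihx =>
    have e : g * x⁻¹ * g⁻¹ = (g * x * g⁻¹)⁻¹ := by group
    rw [e]; exact inv_mem ihx

end Pool.Agent.Helper705.Rad
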