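import Mathlib
import Pool.Agent.Helper705.Rad.RVerbal
import Pool.Agent.Helper705.Rad.RConv
import Pool.Agent.Helper705.Hopf.HDer

set_option autoImplicit false

open scoped commutatorElement

namespace Pool.Agent.Helper705.Rad

section laws

variable {K : Type} [Group K]

/-- the laws of a group -/
def Laws (K : Type) [Group K] : Set (FreeGroup ℕ) := {w | ∀ ψ : FreeGroup ℕ →* K, ψ w = 1}

lemma verbal_laws_le {α : Type} (u : FreeGroup α) (hu : u ∈ Verbal (Laws K) (FreeGroup α))
    (ψ : FreeGroup α →* K) : ψ u = 1 := by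
  have hle : Verbal (Laws K) (FreeGroup α) ≤ ψ.ker := by
    unfold Verbal
    rw [Subgroup.closure_le]
    rintro _ ⟨w, hw, φ, rfl⟩
    exact hw (ψ.comp φ)
  exact hle hu

lemma verbal_laws_ge {α : Type} (u : FreeGroup α) (hu : ∀ ψ : FreeGroup α →* K, ψ u = 1) :
    u ∈ Verbal (Laws K) (FreeGroup α) := by
  classical
  obtain ⟨T, hT⟩ := Hopf.exists_finset_closure u
  let e : T ≃ Fin T.card := T.equivFin
  let p : FreeGroup α →* FreeGroup ℕ := FreeGroup.lift
    (fun g => if hg : g ∈ T then FreeGroup.of ((e ⟨g, hg⟩ : Fin T.card) : ℕ) else 1)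
  let q : FreeGroup ℕ →* FreeGroup α := FreeGroup.lift
    (fun n => if hn : n < T.card then FreeGroup.of ((e.symm ⟨n, hn⟩ : T) : α) else 1)
  have hqp : ∀ v ∈ Subgroup.closure (FreeGroup.of '' (T : Set α)), q (p v) = v := by
    intro v hv
    have : Set.EqOn (q.comp p) (MonoidHom.id _) (Subgroup.closure (FreeGroup.of '' (T : Set α))) := by
      apply MonoidHom.eqOn_closure
      rintro _ ⟨g, hg, rfl⟩
      have hg' : g ∈ T := hg
      simp [p, q, hg']
    exact this hv
  apply Subgroup.subset_closure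
  exact ⟨p u, fun ψ => hu (ψ.comp p), q, hqp u hT⟩

end laws

/-- the word, evaluated at the free generators -/
noncomputable def vFree : FreeGroup ℕ := vW FreeGroup.of

lemma vFree_val {G : Type} [Group G] (φ : FreeGroup ℕ →* G) :
    φ vFree = vW (fun i => φ (FreeGroup.of i)) := map_vW φ _

lemma vW_congr {G : Type} [Group G] (a a' : ℕ → G) (h : ∀ i, i < 17 → a i = a' i) :
    vW a = vW a' := by
  have hr : rW a = rW a' := by
    unfold rW
    rw [h 4 (by decide), h 5 (by decide), h 6 (by decide), h 7 (by decide), h 8 (by decide),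
      h 9 (by decide), h 10 (by decide), h 11 (by decide)]
  have hc : cW a = cW a' := by
    unfold cW
    rw [h 0 (by decide), h 1 (by decide), h 2 (by decide), h 3 (by decide)]
  have hb : ∀ g, bW a g = bW a' g := by
    intro g
    unfold bW
    rw [hr, hc]
  have hm : ∀ z, mW a z = mW a' z := by
    intro z
    unfold mW
    rw [hb, h 13 (by decide), h 16 (by decide)]
  have hl : lits a = lits a' := by
    unfold lits
    rw [h 12 (by decide), h 13 (by decide)]
  have hE : ∀ (l : List (Bool × G)) (m : G), EW a l m = EW a' l m := by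
    intro l m
    induction l with
    | nil => rfl
    | cons p l ih =>
      rcases p with ⟨b, g⟩
      rcases b
      · rw [EW_false, EW_false, ih, hb]
      · rw [EW_true, EW_true, ih, hb]
  unfold vW
  rw [hE, hl, hm, hm, h 14 (by decide), h 15 (by decide)]

/-- the word set -/
noncomputable def WW : Set (FreeGroup ℕ) := {vFree}

section abs

variable {F : Type} [Group F]

lemma mem_WW (y : F) : (∃ w ∈ WW, ∃ φ : FreeGroup ℕ →* F, φ w = y) ↔
    ∃ u : ℕ → F, vW u = y := by
  constructor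
  · rintro ⟨w, hw, φ, rfl⟩
    have hw' : w = vFree := hw
    rw [hw', vFree_val]
    exact ⟨_, rfl⟩
  · rintro ⟨u, rfl⟩
    refine ⟨vFree, rfl, FreeGroup.lift u, ?_⟩
    rw [vFree_val]
    congr 1
    funext i
    exact FreeGroup.lift_apply_of

lemma verbal_le {K : Subgroup F} (h : ∀ u : ℕ → F, vW u ∈ K) : Verbal WW F ≤ K := by
  unfold Verbal
  rw [Subgroup.closure_le]
  intro z hz
  obtain ⟨u, rfl⟩ := (mem_WW z).mp hz
  exact h u

lemma H_comm (hc : ∀ u u' : ℕ → F, commG (vW u) (vW u'))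
    (x y : F) (hx : x ∈ Verbal WW F) (hy : y ∈ Verbal WW F) : x * y = y * x := by
  have h1 : ∀ (u : ℕ → F) (y : F), y ∈ Verbal WW F → y * vW u = vW u * y := by
    intro u y hy
    have hle : Verbal WW F ≤ Subgroup.centralizer {vW u} := by
      apply verbal_le
      intro u'
      rw [Subgroup.mem_centralizer_singleton_iff]
      exact hc u' u
    exact Subgroup.mem_centralizer_singleton_iff.mp (hle hy)
  have hle : Verbal WW F ≤ Subgroup.centralizer {y} := by
    apply verbal_le
    intro u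
    rw [Subgroup.mem_centralizer_singleton_iff]
    exact (h1 u y hy).symm
  exact Subgroup.mem_centralizer_singleton_iff.mp (hle hx)

lemma H_root (hr : ∀ (u : ℕ → F) (m : ℕ), 1 ≤ m → rootW u m = vW u)
    (hc : ∀ u u' : ℕ → F, commG (vW u) (vW u'))
    (h : F) (hh : h ∈ Verbal WW F) (n : ℕ) (hn : 1 ≤ n) :
    ∃ x ∈ Verbal WW F, x ^ n = h := by
  have hh' := hh
  unfold Verbal at hh'
  induction hh' using Subgroup.closure_induction with
  | mem x hx =>
    obtain ⟨u, rfl⟩ := (mem_WW x).mp hx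
    refine ⟨(sW u n)⁻¹ * vW u * sW u n, ?_, hr u n hn⟩
    have h2 := (verbal_normal WW F).conj_mem (vW u) hh (sW u n)⁻¹
    rwa [inv_inv] at h2
  | one => exact ⟨1, one_mem _, one_pow _⟩
  | mul x y hx hy ihx ihy =>
    obtain ⟨a, ha, rfl⟩ := ihx hx
    obtain ⟨b, hb, rfl⟩ := ihy hy
    refine ⟨a * b, mul_mem ha hb, ?_⟩
    exact (show Commute a b from H_comm hc a b ha hb).mul_pow n
  | inv x hx ihx =>
    obtain ⟨a, ha, rfl⟩ := ihx hx
    exact ⟨a⁻¹, inv_mem ha, inv_pow a n⟩

end abs

section rel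

variable {K : Type} [Group K] (α : Type)

lemma pj_eq (x y : FreeGroup α) (h : ∀ ψ : FreeGroup α →* K, ψ x = ψ y) :
    QuotientGroup.mk' (Verbal (Laws K) (FreeGroup α)) x =
      QuotientGroup.mk' (Verbal (Laws K) (FreeGroup α)) y := by
  rw [← mul_inv_eq_one, ← map_inv, ← map_mul]
  refine (QuotientGroup.eq_one_iff _).mpr (verbal_laws_ge _ ?_)
  intro ψ
  rw [map_mul, map_inv, h ψ, mul_inv_cancel]

lemma rel_root (hr : ∀ (u : ℕ → K) (m : ℕ), 1 ≤ m → rootW u m = vW u)
    (u : ℕ → FreeGroup α ⧸ Verbal (Laws K) (FreeGroup α)) (m : ℕ) (hm : 1 ≤ m) :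
    rootW u m = vW u := by
  choose v hv using fun i => QuotientGroup.mk'_surjective (Verbal (Laws K) (FreeGroup α)) (u i)
  have hu : (fun i => QuotientGroup.mk' (Verbal (Laws K) (FreeGroup α)) (v i)) = u := by
    funext i; exact hv i
  have e1 := map_rootW (QuotientGroup.mk' (Verbal (Laws K) (FreeGroup α))) v m
  have e2 := map_vW (QuotientGroup.mk' (Verbal (Laws K) (FreeGroup α))) v
  rw [hu] at e1 e2
  rw [← e1, ← e2]
  apply pj_eq
  intro ψ
  rw [map_rootW, map_vW]
  exact hr _ m hm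

lemma rel_comm (hc : ∀ u u' : ℕ → K, commG (vW u) (vW u'))
    (u u' : ℕ → FreeGroup α ⧸ Verbal (Laws K) (FreeGroup α)) : commG (vW u) (vW u') := by
  choose v hv using fun i => QuotientGroup.mk'_surjective (Verbal (Laws K) (FreeGroup α)) (u i)
  choose v' hv' using fun i => QuotientGroup.mk'_surjective (Verbal (Laws K) (FreeGroup α)) (u' i)
  have hu : (fun i => QuotientGroup.mk' (Verbal (Laws K) (FreeGroup α)) (v i)) = u := by
    funext i; exact hv i
  have hu' : (fun i => QuotientGroup.mk' (Verbal (Laws K) (FreeGroup α)) (v' i)) = u' := by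
    funext i; exact hv' i
  have e1 := map_vW (QuotientGroup.mk' (Verbal (Laws K) (FreeGroup α))) v
  have e2 := map_vW (QuotientGroup.mk' (Verbal (Laws K) (FreeGroup α))) v'
  rw [hu] at e1
  rw [hu'] at e2
  unfold commG
  rw [← e1, ← e2, ← map_mul, ← map_mul]
  apply pj_eq
  intro ψ
  rw [map_mul, map_mul, map_vW, map_vW]
  exact hc _ _

lemma rel_ne (a : ℕ → K) (ha : neOne (vW a)) (ι : Fin 17 ↪ α) :
    Verbal WW (FreeGroup α ⧸ Verbal (Laws K) (FreeGroup α)) ≠ ⊥ := by
  classical
  intro hbot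
  let v : ℕ → FreeGroup α := fun i => if h : i < 17 then FreeGroup.of (ι ⟨i, h⟩) else 1
  have e0 := map_vW (QuotientGroup.mk' (Verbal (Laws K) (FreeGroup α))) v
  have h1 : QuotientGroup.mk' (Verbal (Laws K) (FreeGroup α)) (vW v) ∈
      Verbal WW (FreeGroup α ⧸ Verbal (Laws K) (FreeGroup α)) := by
    rw [e0]
    apply Subgroup.subset_closure
    exact (mem_WW _).mpr ⟨_, rfl⟩
  rw [hbot, Subgroup.mem_bot] at h1
  have h2 : vW v ∈ Verbal (Laws K) (FreeGroup α) := (QuotientGroup.eq_one_iff _).mp h1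
  let f : α → K := fun x => if h : ∃ i : Fin 17, ι i = x then
    a ((Classical.choose h : Fin 17) : ℕ) else 1
  let ψ : FreeGroup α →* K := FreeGroup.lift f
  have h3 := verbal_laws_le _ h2 ψ
  have e3 := map_vW ψ v
  rw [e3] at h3
  have h4 : vW (fun i => ψ (v i)) = vW a := by
    apply vW_congr
    intro i hi
    have e1 : v i = FreeGroup.of (ι ⟨i, hi⟩) := by
      simp only [v]; rw [dif_pos hi]
    have hex : ∃ j : Fin 17, ι j = ι ⟨i, hi⟩ := ⟨_, rfl⟩
    have e2 : ((Classical.choose hex : Fin 17) : ℕ) = i := by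
      have := ι.injective (Classical.choose_spec hex)
      rw [this]
    rw [e1]
    have e4 : ψ (FreeGroup.of (ι ⟨i, hi⟩)) = f (ι ⟨i, hi⟩) := FreeGroup.lift_apply_of
    rw [e4]
    simp only [f]
    rw [dif_pos hex, e2]
  rw [h4] at h3
  exact ha h3

lemma rel_sol (d : ℕ) (hd : derivedSeries K d = ⊥) :
    derivedSeries (FreeGroup α ⧸ Verbal (Laws K) (FreeGroup α)) d = ⊥ := by
  rw [← map_derivedSeries_eq (QuotientGroup.mk'_surjective (Verbal (Laws K) (FreeGroup α))) d,
    Subgroup.map_eq_bot_iff, QuotientGroup.ker_mk']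
  intro x hx
  apply verbal_laws_ge
  intro ψ
  have h1 : ψ x ∈ derivedSeries K d := map_derivedSeries_le_derivedSeries ψ d ⟨x, hx, rfl⟩
  rw [hd] at h1
  exact h1

end rel

end Pool.Agent.Helper705.Rad
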